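import Mathlib

set_option autoImplicit false

/-!
# Existence of the data for cube roots
-/

namespace Pool.Agent.V7H76.CU

open NumberField

/-- iterated duplication on `u v w = const`, `u + v + w = 0`: the points have strictly increasing
2-adic denominators -/
lemma seq_exists (m : ℕ) : ∃ A B C E : ℤ, Odd A ∧ Odd B ∧ Odd C ∧ Odd E ∧
    A + 2 ^ (3 * m + 7) * B + C = 0 ∧ A * B * C = -3 * E ^ 3 := by
  induction m with
  | zero =>
    exact ⟨125, -1, 3, 5, by decide, by decide, by decide, by decide, by norm_num, by norm_num⟩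
  | succ m ih =>
    obtain ⟨A, B, C, E, hA, hB, hC, hE, h1, h2⟩ := ih
    set V : ℤ := 2 ^ (3 * m + 7) * B with hV
    set U : ℤ := 2 ^ (3 * m + 6) * B with hU
    have hVU : V = 2 * U := by rw [hV, hU]; ring
    have hUe : Even U := by
      rw [hU]
      have : (2 : ℤ) ^ (3 * m + 6) = 2 * 2 ^ (3 * m + 5) := by ring
      rw [this, mul_assoc]
      exact even_two_mul _
    have hVe : Even V := by rw [hVU]; exact even_two_mul _
    set P : ℤ := A - V with hP
    set Q : ℤ := V - C with hQ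
    set S : ℤ := -A - U with hS
    have hPo : Odd P := hA.sub_even hVe
    have hQo : Odd Q := hVe.sub_odd hC
    have hSo : Odd S := hA.neg.sub_even hUe
    refine ⟨A * Q ^ 3, B * S ^ 3, C * P ^ 3, E * P * Q * S, hA.mul hQo.pow, hB.mul hSo.pow,
      hC.mul hPo.pow, ((hE.mul hPo).mul hQo).mul hSo, ?_, ?_⟩
    · have h3 : (2 : ℤ) ^ (3 * (m + 1) + 7) * (B * S ^ 3) = V * (2 * S) ^ 3 := by
        rw [hV]; ring
      rw [h3]
      have hC' : C = -A - V := by linarith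
      rw [hP, hQ, hS, hC', hVU]
      ring
    · linear_combination (P * Q * S) ^ 3 * h2

section

variable {k : Type} [Field k] [NumberField k] {ω : 𝓞 k} (hω : ω ^ 2 + ω + 1 = 0)

include hω

lemma lin_indep (x y : ℤ) (h : (x : 𝓞 k) + y * ω = 0) : x = 0 ∧ y = 0 := by
  have h1 : ((x ^ 2 - x * y + y ^ 2 : ℤ) : 𝓞 k) = 0 := by
    push_cast
    have h2 : (x : 𝓞 k) = -(y : 𝓞 k) * ω := by linear_combination h
    rw [h2]
    linear_combination (y : 𝓞 k) ^ 2 * hω
  have h2 : x ^ 2 - x * y + y ^ 2 = 0 := by exact_mod_cast h1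
  constructor
  · nlinarith [sq_nonneg (2 * y - x), sq_nonneg x]
  · nlinarith [sq_nonneg (2 * x - y), sq_nonneg y]

lemma cube_xy (x y : ℤ) : ((x : 𝓞 k) + y * ω) ^ 3 =
    ((x ^ 3 + y ^ 3 - 3 * x * y ^ 2 : ℤ) : 𝓞 k) + ((3 * x * y * (x - y) : ℤ) : 𝓞 k) * ω := by
  push_cast
  linear_combination (3 * (x : 𝓞 k) * y ^ 2 + (y : 𝓞 k) ^ 3 * (ω - 1)) * hω

lemma prod_xy (A B : ℕ → ℤ) (hA : ∀ i, Odd (A i)) (hB : ∀ i, Odd (B i)) (n : ℕ) :
    ∃ X Z : ℤ, ∏ i ∈ Finset.range n, ((A i : 𝓞 k) - ((2 ^ (3 * i + 7) * B i : ℤ) : 𝓞 k) * ω) =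
      X + ((2 ^ 7 * Z : ℤ) : 𝓞 k) * ω ∧ Odd X ∧ ((n = 0 ∧ Z = 0) ∨ (0 < n ∧ Odd Z)) := by
  induction n with
  | zero => exact ⟨1, 0, by simp, odd_one, Or.inl ⟨rfl, rfl⟩⟩
  | succ n ih =>
    obtain ⟨X, Z, h1, h2, h3⟩ := ih
    rw [Finset.prod_range_succ, h1]
    set V : ℤ := 2 ^ (3 * n + 7) * B n with hV
    have hV7 : V = 2 ^ 7 * (2 ^ (3 * n) * B n) := by rw [hV]; ring
    have hVe : Even V := by
      rw [hV7]
      have : (2 : ℤ) ^ 7 = 2 * 2 ^ 6 := by norm_num
      rw [this, mul_assoc]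
      exact even_two_mul _
    refine ⟨X * A n + 2 ^ 7 * Z * V, Z * A n - X * (2 ^ (3 * n) * B n) + Z * V, ?_, ?_,
      Or.inr ⟨by omega, ?_⟩⟩
    · have h4 : ((2 ^ 7 * (Z * A n - X * (2 ^ (3 * n) * B n) + Z * V) : ℤ) : 𝓞 k) =
          ((2 ^ 7 * Z * A n - X * V + 2 ^ 7 * Z * V : ℤ) : 𝓞 k) := by
        congr 1
        rw [hV7]
        ring
      rw [h4]
      push_cast
      linear_combination -(2 ^ 7 * (Z : 𝓞 k) * V) * hω
    · exact (h2.mul (hA n)).add_even (hVe.mul_left _)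
    · rcases h3 with ⟨h3, h4⟩ | ⟨h3, h4⟩
      · subst h3
        rw [h4]
        simp only [zero_mul, mul_zero, pow_zero, one_mul, zero_sub, add_zero]
        exact (h2.mul (hB 0)).neg
      · have h5 : Even (X * (2 ^ (3 * n) * B n)) := by
          obtain ⟨m, rfl⟩ : ∃ m, n = m + 1 := ⟨n - 1, by omega⟩
          have : (2 : ℤ) ^ (3 * (m + 1)) = 2 * 2 ^ (3 * m + 2) := by ring
          rw [this, mul_assoc]
          exact (even_two_mul _).mul_left _
        exact ((h4.mul (hA n)).sub_even h5).add_even (hVe.mul_left _)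

/-- **The data exist.** -/
theorem exists_data (d : ℕ) (hd : 0 < d) :
    ∃ (b : Fin d → ℤ) (a : 𝓞 k) (β : Fin d → 𝓞 k), Function.Injective b ∧
      (∀ i, (b i : 𝓞 k) - a = β i ^ 3) ∧ (∀ i, β i ≠ 0) ∧
      ∀ n : ℤ, ∏ i, β i ^ 3 ≠ (n : 𝓞 k) := by
  classical
  choose A B C E hA hB hC hE h1 h2 using seq_exists
  set V : ℕ → ℤ := fun i => 2 ^ (3 * i + 7) * B i with hV
  set N : Fin d → ℤ := fun i => 2 ^ ((i : ℕ) + 2) * E i with hN
  set M : Fin d → ℤ := fun i => ∏ j ∈ Finset.univ.erase i, N j with hM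
  set NN : ℤ := ∏ j, N j with hNN
  have hNM : ∀ i, N i * M i = NN := fun i => Finset.mul_prod_erase _ _ (Finset.mem_univ i)
  have hE0 : ∀ i, E i ≠ 0 := by
    intro i h
    have := hE i
    rw [h] at this
    exact absurd this (by decide)
  have hN0 : ∀ i, N i ≠ 0 := fun i => mul_ne_zero (by positivity) (hE0 _)
  have hNN0 : NN ≠ 0 := Finset.prod_ne_zero_iff.2 fun i _ => hN0 i
  have hM0 : ∀ i, M i ≠ 0 := fun i => Finset.prod_ne_zero_iff.2 fun j _ => hN0 j
  have hVe : ∀ i, Even (V i) := by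
    intro i
    have h3 : V i = 2 * (2 ^ (3 * i + 6) * B i) := by rw [hV]; ring
    rw [h3]
    exact even_two_mul _
  set R : ℕ → ℤ := fun i => A i ^ 3 - V i ^ 3 - 3 * A i * V i ^ 2 with hR
  have hRo : ∀ i, Odd (R i) := by
    intro i
    have e1 : Even (V i ^ 3) := (hVe i).pow_of_ne_zero (by norm_num)
    have e2 : Even (V i ^ 2) := (hVe i).pow_of_ne_zero (by norm_num)
    exact (((hA i).pow).sub_even e1).sub_even (e2.mul_left _)
  have hβ : ∀ i : Fin d, (((M i ^ 3 * R i : ℤ) : 𝓞 k)) - ((18 * NN ^ 3 : ℤ) : 𝓞 k) * ω =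
      ((M i : 𝓞 k) * ((A i : 𝓞 k) - (V i : 𝓞 k) * ω)) ^ 3 := by
    intro i
    have h3 := cube_xy hω (M i * A i) (-(M i * V i))
    have h4 : ((M i : 𝓞 k) * ((A i : 𝓞 k) - (V i : 𝓞 k) * ω)) =
        ((M i * A i : ℤ) : 𝓞 k) + ((-(M i * V i) : ℤ) : 𝓞 k) * ω := by
      push_cast; ring
    rw [h4, h3]
    have h5 : (M i * A i) ^ 3 + (-(M i * V i)) ^ 3 - 3 * (M i * A i) * (-(M i * V i)) ^ 2 =
        M i ^ 3 * R i := by
      rw [hR]; ring
    have h6 : 3 * (M i * A i) * (-(M i * V i)) * (M i * A i - (-(M i * V i))) =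
        -(18 * NN ^ 3) := by
      have h7 : A (i : ℕ) + V i = -C i := by
        have := h1 (i : ℕ)
        simp only [hV]
        linarith
      have h8 : A (i : ℕ) * V i * C i = -6 * (2 ^ ((i : ℕ) + 2) * E i) ^ 3 := by
        have h9 := h2 (i : ℕ)
        simp only [hV]
        linear_combination 2 ^ (3 * (i : ℕ) + 7) * h9
      rw [← hNM i]
      have h10 : 3 * (M i * A i) * (-(M i * V i)) * (M i * A i - (-(M i * V i))) =
          -3 * M i ^ 3 * (A i * V i * (A i + V i)) := by ring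
      rw [h10, h7]
      have h11 : A (i : ℕ) * V i * -C i = -(A i * V i * C i) := by ring
      rw [h11, h8, hN]
      ring
    rw [h5, h6]
    push_cast
    ring
  refine ⟨fun i => M i ^ 3 * R i, ((18 * NN ^ 3 : ℤ) : 𝓞 k) * ω,
    fun i => (M i : 𝓞 k) * ((A i : 𝓞 k) - (V i : 𝓞 k) * ω), ?_, hβ, ?_, ?_⟩
  · -- injectivity
    have key : ∀ i j : Fin d, i < j → M i ^ 3 * R i ≠ M j ^ 3 * R j := by
      intro i j hij h
      have h3 : R i * N j ^ 3 = R j * N i ^ 3 := by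
        have h4 : NN ^ 3 * (R i * N j ^ 3) = NN ^ 3 * (R j * N i ^ 3) := by
          have e1 : NN ^ 3 * (R i * N j ^ 3) = N i ^ 3 * N j ^ 3 * (M i ^ 3 * R i) := by
            rw [← hNM i]; ring
          have e2 : NN ^ 3 * (R j * N i ^ 3) = N i ^ 3 * N j ^ 3 * (M j ^ 3 * R j) := by
            rw [← hNM j]; ring
          rw [e1, e2, h]
        exact mul_left_cancel₀ (pow_ne_zero 3 hNN0) h4
      obtain ⟨e, he⟩ : ∃ e : ℕ, (j : ℕ) = i + (e + 1) := by
        have : (i : ℕ) < j := hij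
        exact ⟨j - i - 1, by omega⟩
      have h5 : N j = 2 ^ ((i : ℕ) + 2) * (2 * (2 ^ e * E j)) := by
        simp only [hN]
        have : (2 : ℤ) ^ ((j : ℕ) + 2) = 2 ^ ((i : ℕ) + 2) * (2 * 2 ^ e) := by
          rw [he]; ring
        rw [this]
        ring
      have h6 : R i * (2 * (2 ^ e * E j)) ^ 3 = R j * E i ^ 3 := by
        have h7 : (2 ^ ((i : ℕ) + 2) : ℤ) ^ 3 * (R i * (2 * (2 ^ e * E j)) ^ 3) =
            (2 ^ ((i : ℕ) + 2) : ℤ) ^ 3 * (R j * E i ^ 3) := by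
          rw [h5] at h3
          simp only [hN] at h3
          linear_combination h3
        exact mul_left_cancel₀ (by positivity) h7
      have h8 : Odd (R j * E i ^ 3) := (hRo _).mul (hE _).pow
      have h9 : Even (R i * (2 * (2 ^ e * E j)) ^ 3) :=
        ((even_two_mul _).pow_of_ne_zero (by norm_num)).mul_left _
      rw [← h6] at h8
      exact (Int.not_even_iff_odd.2 h8) h9
    intro i j hij
    simp only at hij
    rcases lt_trichotomy i j with h | h | h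
    · exact absurd hij (key i j h)
    · exact h
    · exact absurd hij.symm (key j i h)
  · intro i h0
    have h3 : (((M i * A i : ℤ) : 𝓞 k)) + ((-(M i * V i) : ℤ) : 𝓞 k) * ω = 0 := by
      rw [← h0]; push_cast; ring
    have h4 := (lin_indep hω _ _ h3).1
    have h5 : A (i : ℕ) ≠ 0 := by
      intro h
      have := hA (i : ℕ)
      rw [h] at this
      exact absurd this (by decide)
    exact mul_ne_zero (hM0 i) h5 h4
  · intro n hn
    obtain ⟨X, Z, h3, hX, h4⟩ := prod_xy hω A B hA hB d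
    rcases h4 with ⟨h4, -⟩ | ⟨-, hZ⟩
    · omega
    have h5 : ∏ i : Fin d, ((M i : 𝓞 k) * ((A i : 𝓞 k) - (V i : 𝓞 k) * ω)) =
        ((∏ i, M i : ℤ) : 𝓞 k) * (X + ((2 ^ 7 * Z : ℤ) : 𝓞 k) * ω) := by
      rw [← h3, Finset.prod_mul_distrib,
        ← Fin.prod_univ_eq_prod_range (fun i => (A i : 𝓞 k) - (V i : 𝓞 k) * ω) d]
      push_cast
      rfl
    rw [Finset.prod_pow, h5, mul_pow, cube_xy hω] at hn
    set s : ℤ := ∏ i, M i with hs
    have hs0 : s ≠ 0 := Finset.prod_ne_zero_iff.2 fun i _ => hM0 i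
    set Y : ℤ := 2 ^ 7 * Z with hY
    have hYe : Even Y := by
      have : Y = 2 * (2 ^ 6 * Z) := by rw [hY]; ring
      rw [this]
      exact even_two_mul _
    have h7 := (lin_indep hω (s ^ 3 * (X ^ 3 + Y ^ 3 - 3 * X * Y ^ 2) - n)
      (s ^ 3 * (3 * X * Y * (X - Y))) (by
      push_cast
      push_cast at hn
      linear_combination hn)).2
    have hX0 : X ≠ 0 := by
      rintro rfl
      exact absurd hX (by decide)
    have hZ0 : Z ≠ 0 := by
      rintro rfl
      exact absurd hZ (by decide)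
    have hY0 : Y ≠ 0 := mul_ne_zero (by norm_num) hZ0
    have hXY : X - Y ≠ 0 := by
      intro h
      have : Odd (X - Y) := hX.sub_even hYe
      rw [h] at this
      exact absurd this (by decide)
    exact (mul_ne_zero (pow_ne_zero 3 hs0) (mul_ne_zero (mul_ne_zero
      (mul_ne_zero three_ne_zero hX0) hY0) hXY)) h7

end

end Pool.Agent.V7H76.CU
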