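import Mathlib
import Pool.Agent.V7H76.CU.Fun
import Pool.Agent.Y789.SG.LocF

set_option autoImplicit false

/-!
# The determinant of logarithms along analytic branches, for cyclic Kummer covers
-/

namespace Pool.Agent.V7H76.CU

open Polynomial Filter Topology
open Pool.Agent.W289.SL Pool.Agent.W254.LF
open Pool.Agent.Y789.SG (Germs)

lemma germs_sum {K : Type} [NontriviallyNormedField K] {E : Type} [Field E] [Algebra K E]
    {D0 : Derivation K E E} {T : (K → K) → E} (G : Germs K E D0 T) {ι : Type} (s : Finset ι)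
    (c : ι → K) (f : ι → K → K) (hf : ∀ i, AnalyticAt K (f i) 0) :
    AnalyticAt K (fun x => ∑ i ∈ s, c i * f i x) 0 ∧
      T (fun x => ∑ i ∈ s, c i * f i x) = ∑ i ∈ s, algebraMap K E (c i) * T (f i) := by
  classical
  induction s using Finset.induction_on with
  | empty =>
    simp only [Finset.sum_empty]
    exact ⟨analyticAt_const, by rw [G.c, map_zero]⟩
  | insert a s ha ih =>
    simp only [Finset.sum_insert ha]
    refine ⟨(analyticAt_const.mul (hf a)).add ih.1, ?_⟩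
    rw [G.add (fun x => c a * f a x) _ (analyticAt_const.mul (hf a)) ih.1, ih.2,
      G.mul (fun _ => c a) (f a) analyticAt_const (hf a), G.c]

/-- **Core.** -/
theorem core {p : ℕ} [Fact p.Prime] {L : ℂ_[p] → ℂ_[p]} (hL : IsIwasawaLog p L) {d n : ℕ}
    (Δ : Dat ℂ_[p] d n) (ξ : Fin n → ℂ_[p]) (hξ : ∀ l, ξ l ≠ 0) (hξ0 : ∑ l, ξ l = 0)
    {E : Type} [Field E] [Algebra ℂ_[p] E] {D0 : Derivation ℂ_[p] E E}
    {T : (ℂ_[p] → ℂ_[p]) → E} (G : Germs ℂ_[p] E D0 T) (y : Fin d → E) (tE : E)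
    (ht : D0 tE ≠ 0) (hy : ∀ j, aeval (y j) (Δ.P j) = tE)
    (hinj : Function.Injective fun j => aeval (y j) (Δ.pi j))
    (f : Fin d → Fin d → Fin n → ℂ_[p] → ℂ_[p]) (hf : ∀ i j l, AnalyticAt ℂ_[p] (f i j l) 0)
    (hf0 : ∀ i j l, f i j l 0 ≠ 0) (g : Fin d → Fin d → E)
    (hfE : ∀ i j l, T (f i j l) = g i j * aeval (y j) (Δ.U i j l)) :
    ∀ᶠ s in 𝓝[≠] (0 : ℂ_[p]),
      (Matrix.of fun i j : Fin d => ∑ l, ξ l * L (f i j l s)).det ≠ 0 := by
  classical
  have hcz : CharZero E := charZero_of_injective_algebraMap (algebraMap ℂ_[p] E).injective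
  have hLOG := Pool.Agent.W398.LF.t_LOG p L hL
  set DE : Derivation ℂ_[p] E E := (D0 tE)⁻¹ • D0 with hDE
  have hDEapp : ∀ z, DE z = (D0 tE)⁻¹ * D0 z := fun z => rfl
  have hDEt : DE tE = 1 := by rw [hDEapp, inv_mul_cancel₀ ht]
  have hDEconst : ∀ z : E, DE z = 0 → ∃ c : ℂ_[p], algebraMap ℂ_[p] E c = z := by
    intro z hz
    apply G.const
    rw [hDEapp] at hz
    rcases mul_eq_zero.1 hz with h | h
    · exact absurd h (inv_ne_zero ht)
    · exact h
  have hyan0 : ∀ i j l, AnalyticAt ℂ_[p] (fun s => L (f i j l s)) 0 := fun i j l =>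
    AnalyticAt.fun_comp (f := fun s => f i j l s) (g := L) ((hLOG _ (hf0 i j l)).1) (hf i j l)
  have hyan : ∀ i j, AnalyticAt ℂ_[p] (fun s => ∑ l, ξ l * L (f i j l s)) 0 := fun i j =>
    (germs_sum G Finset.univ ξ (fun l s => L (f i j l s)) (hyan0 i j)).1
  have hyT : ∀ i j, T (fun s => ∑ l, ξ l * L (f i j l s)) =
      ∑ l, algebraMap ℂ_[p] E (ξ l) * T (fun s => L (f i j l s)) := fun i j =>
    (germs_sum G Finset.univ ξ (fun l s => L (f i j l s)) (hyan0 i j)).2
  have hTf0 : ∀ i j l, T (f i j l) ≠ 0 := by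
    intro i j l h0
    have h1 := (G.zero _ (hf i j l) h0).self_of_nhds
    exact hf0 i j l h1
  have hU0 : ∀ i j l, g i j ≠ 0 ∧ aeval (y j) (Δ.U i j l) ≠ 0 := by
    intro i j l
    have h1 := hTf0 i j l
    rw [hfE] at h1
    exact ⟨left_ne_zero_of_mul h1, right_ne_zero_of_mul h1⟩
  have hD : ∀ i j l, DE (T fun s => L (f i j l s)) = DE (T (f i j l)) / T (f i j l) := by
    intro i j l
    have h1 : ∀ᶠ s in 𝓝 (0 : ℂ_[p]),
        deriv (fun s => L (f i j l s)) s * f i j l s = deriv (f i j l) s := by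
      have hne : ∀ᶠ s in 𝓝 (0 : ℂ_[p]), f i j l s ≠ 0 :=
        ((hf i j l).continuousAt).eventually_ne (hf0 i j l)
      filter_upwards [hne, (hf i j l).eventually_analyticAt] with s hs1 hs2
      have h3 : HasDerivAt (fun s => L (f i j l s)) ((f i j l s)⁻¹ * deriv (f i j l) s) s :=
        HasDerivAt.comp s (h₂ := L) ((hLOG _ hs1).2) (hs2.differentiableAt.hasDerivAt)
      rw [h3.deriv]
      field_simp
    have h4 := G.congr _ _ h1
    rw [G.mul _ _ (hyan0 i j l).deriv (hf i j l), G.deriv _ (hyan0 i j l)] at h4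
    have h5 : T (fun s => deriv (f i j l) s) = D0 (T (f i j l)) := G.deriv _ (hf i j l)
    rw [h5] at h4
    rw [hDEapp, hDEapp, eq_div_iff (hTf0 i j l), mul_assoc, h4]
  set Λ : Matrix (Fin d) (Fin d) E :=
    Matrix.of fun i j => T fun s => ∑ l, ξ l * L (f i j l s) with hΛ
  have hdet : Λ.det ≠ 0 := by
    apply fun_det Δ ξ hξ DE tE hDEt hDEconst y hy hinj Λ
    intro i j
    change DE (T fun s => ∑ l, ξ l * L (f i j l s)) = _
    rw [hyT, map_sum]
    have h1 : ∀ l, DE (algebraMap ℂ_[p] E (ξ l) * T (fun s => L (f i j l s))) =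
        algebraMap ℂ_[p] E (ξ l) * (DE (g i j) / g i j) + algebraMap ℂ_[p] E (ξ l) *
          (DE (aeval (y j) (Δ.U i j l)) / aeval (y j) (Δ.U i j l)) := by
      intro l
      obtain ⟨hg, hu⟩ := hU0 i j l
      rw [← Algebra.smul_def, Derivation.map_smul, Algebra.smul_def, hD, hfE, ← mul_add]
      congr 1
      rw [Derivation.leibniz]
      simp only [smul_eq_mul]
      field_simp
      ring
    rw [Finset.sum_congr rfl fun l _ => h1 l, Finset.sum_add_distrib, ← Finset.sum_mul,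
      ← map_sum, hξ0, map_zero, zero_mul, zero_add]
  let YA : Matrix (Fin d) (Fin d) (anal ℂ_[p]) := Matrix.of fun i j => ⟨_, hyan i j⟩
  have hYA : G.hom YA.det = Λ.det := by
    rw [RingHom.map_det]
    rfl
  have hdval : ∀ s, (YA.det).1 s =
      (Matrix.of fun i j : Fin d => ∑ l, ξ l * L (f i j l s)).det := by
    intro s
    have h3 := RingHom.map_det
      ((Pi.evalRingHom (fun _ : ℂ_[p] => ℂ_[p]) s).comp (anal ℂ_[p]).subtype) YA
    exact h3
  rcases (YA.det).2.eventually_eq_zero_or_eventually_ne_zero with h | h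
  · exfalso
    apply hdet
    rw [← hYA]
    have h1 : T YA.det.1 = T (fun _ => (0 : ℂ_[p])) := G.congr _ _ h
    rw [G.hom_apply, h1, G.c, map_zero]
  · filter_upwards [h] with s hs
    rw [← hdval]
    exact hs

end Pool.Agent.V7H76.CU
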