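import Mathlib
import Pool.Agent.V7H76.CU.Core
import Pool.Agent.Y789.SG.LocI
import Pool.Agent.Y789.SG.Glob

set_option autoImplicit false

/-!
# The local theorems, for cyclic Kummer covers
-/

namespace Pool.Agent.V7H76.CU

open Polynomial Filter Topology
open Pool.Agent.W289.SL Pool.Agent.W254.LF
open Pool.Agent.Y789.SG (Germs exists_germs par an_eval of_unif aeval_rev eval_rev rev_zero acc_int)

/-- No solution tuple at the value `τ` of the parameter is degenerate. -/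
def Good {p : ℕ} [Fact p.Prime] (L : ℂ_[p] → ℂ_[p]) {d n : ℕ} (Δ : Dat ℂ_[p] d n)
    (ξ : Fin n → ℂ_[p]) (τ : ℂ_[p]) : Prop :=
  ∀ y : Fin d → ℂ_[p], (∀ j, (Δ.P j).eval (y j) = τ) →
    (Function.Injective fun j => (Δ.pi j).eval (y j)) →
    (Matrix.of fun i j : Fin d => ∑ l, ξ l * L ((Δ.U i j l).eval (y j))).det ≠ 0

theorem loc_fin {p : ℕ} [Fact p.Prime] {L : ℂ_[p] → ℂ_[p]} (hL : IsIwasawaLog p L) {d n : ℕ}
    (Δ : Dat ℂ_[p] d n) (ξ : Fin n → ℂ_[p]) (hξ : ∀ l, ξ l ≠ 0) (hξ0 : ∑ l, ξ l = 0)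
    (τ₀ : ℂ_[p]) (hτ : τ₀ ≠ 0) : ∀ᶠ τ in 𝓝[≠] τ₀, Good L Δ ξ τ := by
  classical
  obtain ⟨E, _, _, D0, T, G⟩ := exists_germs ℂ_[p]
  have hcz : CharZero E := charZero_of_injective_algebraMap (algebraMap ℂ_[p] E).injective
  set m : Fin d → ℕ := fun j => (Δ.P j).natDegree with hm
  set M : ℕ := ∏ j, (m j).factorial with hM
  have hMpos : 0 < M := Finset.prod_pos fun j _ => Nat.factorial_pos _
  set F : Fin d → ℂ_[p][X] := fun j => Δ.P j - C τ₀ with hF
  have hFd : ∀ j, (F j).natDegree = m j := fun j => natDegree_sub_C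
  have hFm : ∀ j, (F j).Monic := by
    intro j
    apply (Δ.Pm j).sub_of_left
    refine lt_of_le_of_lt degree_C_le ?_
    rw [degree_eq_natDegree (Δ.Pm j).ne_zero]
    exact_mod_cast Δ.Pd_pos j
  have hpar := fun j => par (F j) 1 (hFm j) (by rw [natDegree_one]; exact Nat.zero_le _)
    (fun ρ _ => by rw [eval_one]; exact one_ne_zero) M hMpos (by
      rw [hFd]; exact Finset.dvd_prod_of_mem (fun j => (m j).factorial) (Finset.mem_univ j))
  choose x hx1 hx2 hx3 using hpar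
  have hFev : ∀ j y, (F j).eval y = (Δ.P j).eval y - τ₀ := by
    intro j y
    rw [hF, eval_sub, eval_C]
  have hxP : ∀ j k, ∀ᶠ s in 𝓝 (0 : ℂ_[p]), (Δ.P j).eval (x j k s) = τ₀ + s ^ M := by
    intro j k
    filter_upwards [hx2 j k] with s hs
    rw [hFev, eval_one, mul_one] at hs
    rw [← hs]; ring
  have hx0 : ∀ i j k l, (Δ.U i j l).eval (x j k 0) ≠ 0 := by
    intro i j k l
    have h1 := (hxP j k).self_of_nhds
    rw [zero_pow hMpos.ne', add_zero, Dat.P, eval_prod] at h1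
    have h2 : (Δ.pi j - C (Δ.b i)).eval (x j k 0) ≠ 0 := by
      intro h0
      rw [Finset.prod_eq_zero (Finset.mem_univ i) h0] at h1
      exact hτ h1.symm
    rw [← Δ.fac, eval_prod] at h2
    exact Finset.prod_ne_zero_iff.1 h2 l (Finset.mem_univ _)
  have han : ∀ (R : ℂ_[p][X]) j k, AnalyticAt ℂ_[p] (fun s => R.eval (x j k s)) 0 := by
    intro R j k
    exact (AnalyticAt.aeval_polynomial (hx1 j k) R).congr (by simp [coe_aeval_eq_eval])
  have hkey : ∀ k : (j : Fin d) → Fin (F j).natDegree, ∀ᶠ s in 𝓝[≠] (0 : ℂ_[p]),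
      (Function.Injective fun j => (Δ.pi j).eval (x j (k j) s)) →
      (Matrix.of fun i j : Fin d =>
        ∑ l, ξ l * L ((Δ.U i j l).eval (x j (k j) s))).det ≠ 0 := by
    intro k
    by_cases hk : Function.Injective fun j => aeval (T (x j (k j))) (Δ.pi j)
    · have h1 := core hL Δ ξ hξ hξ0 G (fun j => T (x j (k j))) (T fun s => τ₀ + s ^ M) ?_ ?_ hk
        (fun i j l s => (Δ.U i j l).eval (x j (k j) s)) ?_ ?_ (fun _ _ => 1) ?_
      · filter_upwards [h1] with s hs _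
        exact hs
      · have h2 : T (fun s => τ₀ + s ^ M) = algebraMap ℂ_[p] E τ₀ + T (fun s => s) ^ M := by
          rw [G.add (fun _ => τ₀) (fun s => s ^ M) analyticAt_const (analyticAt_id.pow M), G.c,
            G.pow (f := fun s => s) analyticAt_id]
        rw [h2, map_add, Derivation.map_algebraMap, zero_add, Derivation.leibniz_pow, G.id_deriv,
          smul_eq_mul, mul_one, nsmul_eq_mul]
        exact mul_ne_zero (by exact_mod_cast hMpos.ne') (pow_ne_zero _ G.par_ne)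
      · intro j
        rw [← G.eval (hx1 j (k j))]
        exact G.congr _ _ (hxP j (k j))
      · intro i j l
        exact han _ j (k j)
      · intro i j l
        exact hx0 i j (k j) l
      · intro i j l
        rw [one_mul, G.eval (hx1 j (k j))]
    · rw [Function.Injective] at hk
      push Not at hk
      obtain ⟨j, j', h1, h2⟩ := hk
      rw [← G.eval (hx1 j (k j)), ← G.eval (hx1 j' (k j'))] at h1
      have h3 := (G.inj (han _ j (k j)) (han _ j' (k j')) h1).filter_mono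
        (nhdsWithin_le_nhds (s := {0}ᶜ))
      filter_upwards [h3] with s hs hinj
      exact absurd (hinj hs) h2
  have h1 : ∀ᶠ s in 𝓝[≠] (0 : ℂ_[p]), Good L Δ ξ (τ₀ + s ^ M) := by
    have h2 : ∀ᶠ s in 𝓝[≠] (0 : ℂ_[p]), ∀ k : (j : Fin d) → Fin (F j).natDegree,
      (Function.Injective fun j => (Δ.pi j).eval (x j (k j) s)) →
      (Matrix.of fun i j : Fin d =>
        ∑ l, ξ l * L ((Δ.U i j l).eval (x j (k j) s))).det ≠ 0 :=
      eventually_all.2 hkey
    have h3 : ∀ᶠ s in 𝓝[≠] (0 : ℂ_[p]), ∀ j, ∀ y,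
        (F j).eval y = s ^ M * (1 : ℂ_[p][X]).eval y → ∃ k, y = x j k s := eventually_all.2 hx3
    filter_upwards [h2, h3] with s hs2 hs3 y hy hinj
    have h4 : ∀ j, ∃ k, y j = x j k s := by
      intro j
      apply hs3 j
      rw [hFev, hy, eval_one]
      ring
    choose k hk using h4
    have h5 := hs2 k
    simp only [← hk] at h5
    exact h5 hinj
  exact of_unif hMpos τ₀ h1

theorem loc_inf {p : ℕ} [Fact p.Prime] {L : ℂ_[p] → ℂ_[p]} (hL : IsIwasawaLog p L) {d n : ℕ}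
    (Δ : Dat ℂ_[p] d n) (ξ : Fin n → ℂ_[p]) (hξ : ∀ l, ξ l ≠ 0) (hξ0 : ∑ l, ξ l = 0)
    (hU : ∀ i j l, (Δ.U i j l).Monic) (e : Fin d → Fin d → ℕ)
    (hUd : ∀ i j l, (Δ.U i j l).natDegree = e i j) :
    ∀ᶠ σ in 𝓝[≠] (0 : ℂ_[p]), Good L Δ ξ σ⁻¹ := by
  classical
  obtain ⟨E, _, _, D0, T, G⟩ := exists_germs ℂ_[p]
  have hcz : CharZero E := charZero_of_injective_algebraMap (algebraMap ℂ_[p] E).injective
  set m : Fin d → ℕ := fun j => (Δ.P j).natDegree with hm
  have hnpos : ∀ j, 0 < m j := Δ.Pd_pos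
  set M : ℕ := ∏ j, (m j).factorial with hM
  have hMpos : 0 < M := Finset.prod_pos fun j _ => Nat.factorial_pos _
  set F : Fin d → ℂ_[p][X] := fun j => X ^ m j with hF
  have hFd : ∀ j, (F j).natDegree = m j := fun j => natDegree_X_pow _
  have hFm : ∀ j, (F j).Monic := fun j => monic_X_pow _
  have hFev : ∀ j y, (F j).eval y = y ^ m j := by
    intro j y
    rw [hF, eval_pow, eval_X]
  have hpar := fun j => par (F j) (Δ.P j).reverse (hFm j)
    (by rw [hFd]; exact reverse_natDegree_le _)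
    (fun ρ hρ => by
      rw [hFev] at hρ
      rw [pow_eq_zero_iff (hnpos j).ne'] at hρ
      rw [hρ, rev_zero (Δ.Pm j)]
      exact one_ne_zero) M hMpos (by
      rw [hFd]; exact Finset.dvd_prod_of_mem (fun j => (m j).factorial) (Finset.mem_univ j))
  choose x hx1 hx2 hx3 using hpar
  have hxP : ∀ j k, ∀ᶠ s in 𝓝 (0 : ℂ_[p]),
      x j k s ^ m j = s ^ M * (Δ.P j).reverse.eval (x j k s) := by
    intro j k
    filter_upwards [hx2 j k] with s hs
    rwa [hFev] at hs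
  have hx0 : ∀ j k, x j k 0 = 0 := by
    intro j k
    have h1 := (hxP j k).self_of_nhds
    rw [zero_pow hMpos.ne', zero_mul, pow_eq_zero_iff (hnpos j).ne'] at h1
    exact h1
  have hxr : ∀ j k, ∀ᶠ s in 𝓝 (0 : ℂ_[p]), (Δ.P j).reverse.eval (x j k s) ≠ 0 := by
    intro j k
    have hc : ContinuousAt (fun s => (Δ.P j).reverse.eval (x j k s)) 0 :=
      ((an_eval (Δ.P j).reverse (x j k 0)).comp (hx1 j k)).continuousAt
    apply hc.eventually_ne
    simp only [hx0, rev_zero (Δ.Pm j)]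
    exact one_ne_zero
  have hxne : ∀ j k, ∀ᶠ s in 𝓝[≠] (0 : ℂ_[p]), x j k s ≠ 0 := by
    intro j k
    have h1 := (hxP j k).filter_mono (nhdsWithin_le_nhds (s := {0}ᶜ))
    have h2 := (hxr j k).filter_mono (nhdsWithin_le_nhds (s := {0}ᶜ))
    filter_upwards [h1, h2, self_mem_nhdsWithin] with s hs1 hs2 hs3 h0
    rw [h0, zero_pow (hnpos j).ne'] at hs1
    rw [h0] at hs2
    exact mul_ne_zero (pow_ne_zero _ hs3) hs2 hs1.symm
  have hTx : ∀ j k, T (x j k) ≠ 0 := by
    intro j k h0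
    have h1 := (G.zero _ (hx1 j k) h0).filter_mono (nhdsWithin_le_nhds (s := {0}ᶜ))
    obtain ⟨s, hs1, hs2⟩ := (h1.and (hxne j k)).exists
    exact hs2 hs1
  have han : ∀ (R : ℂ_[p][X]) j k, AnalyticAt ℂ_[p] (fun s => R.eval (x j k s)) 0 := by
    intro R j k
    exact (AnalyticAt.aeval_polynomial (hx1 j k) R).congr (by simp [coe_aeval_eq_eval])
  -- the parameter
  have htE : ∀ j k, aeval (T (x j k))⁻¹ (Δ.P j) = (T fun s => s)⁻¹ ^ M := by
    intro j k
    rw [aeval_rev _ _ (hTx j k), ← G.eval (hx1 j k)]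
    have h1 := G.congr _ _ (hxP j k)
    rw [G.pow (hx1 j k), G.mul (fun s => s ^ M) _ (analyticAt_id.pow M) (han _ j k),
      G.pow (f := fun s => s) analyticAt_id] at h1
    have h2 : T (fun s => s) ^ M ≠ 0 := pow_ne_zero _ G.par_ne
    have h3 : T (x j k) ^ m j ≠ 0 := pow_ne_zero _ (hTx j k)
    rw [inv_pow, inv_pow]
    change (T (x j k) ^ m j)⁻¹ * _ = _
    rw [h1] at h3 ⊢
    rw [mul_inv, mul_assoc, inv_mul_cancel₀ (right_ne_zero_of_mul h3), mul_one]
  have hkey : ∀ k : (j : Fin d) → Fin (F j).natDegree, ∀ᶠ s in 𝓝[≠] (0 : ℂ_[p]),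
      (Function.Injective fun j => (Δ.pi j).eval (x j (k j) s)⁻¹) →
      (Matrix.of fun i j : Fin d =>
        ∑ l, ξ l * L ((Δ.U i j l).eval (x j (k j) s)⁻¹)).det ≠ 0 := by
    intro k
    have hrev0 : ∀ (R : ℂ_[p][X]), R.Monic → ∀ j, R.reverse.eval (x j (k j) 0) ≠ 0 := by
      intro R hR j
      rw [hx0, rev_zero hR]
      exact one_ne_zero
    have hne : ∀ᶠ s in 𝓝[≠] (0 : ℂ_[p]), ∀ j, x j (k j) s ≠ 0 :=
      eventually_all.2 fun j => hxne j (k j)
    have hrev1 : ∀ᶠ s in 𝓝[≠] (0 : ℂ_[p]), ∀ i j l, (Δ.U i j l).reverse.eval (x j (k j) s) ≠ 0 := by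
      rw [eventually_all]
      intro i
      rw [eventually_all]
      intro j
      rw [eventually_all]
      intro l
      exact ((han (Δ.U i j l).reverse j (k j)).continuousAt.eventually_ne
        (hrev0 _ (hU i j l) j)).filter_mono nhdsWithin_le_nhds
    by_cases hk : Function.Injective fun j => aeval (T (x j (k j)))⁻¹ (Δ.pi j)
    · have h1 := core hL Δ ξ hξ hξ0 G (fun j => (T (x j (k j)))⁻¹) ((T fun s => s)⁻¹ ^ M) ?_ ?_ hk
        (fun i j l s => (Δ.U i j l).reverse.eval (x j (k j) s)) ?_ ?_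
        (fun i j => T (x j (k j)) ^ e i j) ?_
      · filter_upwards [h1, hne, hrev1] with s hs hs0 hs1 _
        have h2 : ∀ i j : Fin d, ∑ l, ξ l * L ((Δ.U i j l).eval (x j (k j) s)⁻¹) =
            ∑ l, ξ l * L ((Δ.U i j l).reverse.eval (x j (k j) s)) := by
          intro i j
          have h3 : ∀ l, ξ l * L ((Δ.U i j l).eval (x j (k j) s)⁻¹) =
              ξ l * L ((x j (k j) s)⁻¹ ^ e i j) +
                ξ l * L ((Δ.U i j l).reverse.eval (x j (k j) s)) := by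
            intro l
            rw [eval_rev _ _ (hs0 j), hUd, hL.mul _ _ (pow_ne_zero _ (inv_ne_zero (hs0 j)))
              (hs1 i j l), mul_add]
          rw [Finset.sum_congr rfl fun l _ => h3 l, Finset.sum_add_distrib, ← Finset.sum_mul,
            hξ0, zero_mul, zero_add]
        simp only [h2]
        exact hs
      · rw [Derivation.leibniz_pow, Derivation.leibniz_inv, G.id_deriv]
        simp only [smul_eq_mul, nsmul_eq_mul, mul_one]
        exact mul_ne_zero (by exact_mod_cast hMpos.ne') (mul_ne_zero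
          (pow_ne_zero _ (inv_ne_zero G.par_ne))
          (neg_ne_zero.2 (pow_ne_zero _ (inv_ne_zero G.par_ne))))
      · intro j
        exact htE j (k j)
      · intro i j l
        exact han _ j (k j)
      · intro i j l
        exact hrev0 _ (hU i j l) j
      · intro i j l
        rw [G.eval (hx1 j (k j)), aeval_rev _ _ (hTx j (k j)), hUd, ← mul_assoc, ← mul_pow,
          mul_inv_cancel₀ (hTx j (k j)), one_pow, one_mul]
    · rw [Function.Injective] at hk
      push Not at hk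
      obtain ⟨j, j', h1, h2⟩ := hk
      rw [aeval_rev _ _ (hTx j (k j)), aeval_rev _ _ (hTx j' (k j')), inv_pow, inv_pow,
        inv_mul_eq_iff_eq_mul₀ (pow_ne_zero _ (hTx j (k j))), mul_left_comm,
        eq_inv_mul_iff_mul_eq₀ (pow_ne_zero _ (hTx j' (k j'))),
        ← G.eval (hx1 j (k j)), ← G.eval (hx1 j' (k j')), ← G.pow (hx1 j (k j)),
        ← G.pow (hx1 j' (k j'))] at h1
      rw [← G.mul (fun s => x j' (k j') s ^ (Δ.pi j').natDegree)
          (fun s => (Δ.pi j).reverse.eval (x j (k j) s)) ((hx1 j' (k j')).pow _) (han _ j (k j)),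
        ← G.mul (fun s => x j (k j) s ^ (Δ.pi j).natDegree)
          (fun s => (Δ.pi j').reverse.eval (x j' (k j') s)) ((hx1 j (k j)).pow _)
          (han _ j' (k j'))] at h1
      have h3 := (G.inj (((hx1 j' (k j')).pow _).mul (han _ j (k j)))
        (((hx1 j (k j)).pow _).mul (han _ j' (k j'))) h1).filter_mono
        (nhdsWithin_le_nhds (s := {0}ᶜ))
      filter_upwards [h3, hne] with s hs hs0 hinj
      refine absurd (hinj ?_) h2
      have h4 : x j' (k j') s ^ (Δ.pi j').natDegree * (Δ.pi j).reverse.eval (x j (k j) s) =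
          x j (k j) s ^ (Δ.pi j).natDegree * (Δ.pi j').reverse.eval (x j' (k j') s) := hs
      change (Δ.pi j).eval (x j (k j) s)⁻¹ = (Δ.pi j').eval (x j' (k j') s)⁻¹
      rw [eval_rev _ _ (hs0 j), eval_rev _ _ (hs0 j'), inv_pow, inv_pow,
        inv_mul_eq_iff_eq_mul₀ (pow_ne_zero _ (hs0 j)), mul_left_comm,
        eq_inv_mul_iff_mul_eq₀ (pow_ne_zero _ (hs0 j'))]
      exact h4
  have h1 : ∀ᶠ s in 𝓝[≠] (0 : ℂ_[p]), Good L Δ ξ (0 + s ^ M)⁻¹ := by
    have h2 : ∀ᶠ s in 𝓝[≠] (0 : ℂ_[p]), ∀ k : (j : Fin d) → Fin (F j).natDegree,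
      (Function.Injective fun j => (Δ.pi j).eval (x j (k j) s)⁻¹) →
      (Matrix.of fun i j : Fin d =>
        ∑ l, ξ l * L ((Δ.U i j l).eval (x j (k j) s)⁻¹)).det ≠ 0 :=
      eventually_all.2 hkey
    have h3 : ∀ᶠ s in 𝓝[≠] (0 : ℂ_[p]), ∀ j, ∀ y,
        (F j).eval y = s ^ M * (Δ.P j).reverse.eval y → ∃ k, y = x j k s := eventually_all.2 hx3
    have h4 : ∀ᶠ s in 𝓝[≠] (0 : ℂ_[p]), ∀ j, (Δ.P j).eval 0 * s ^ M ≠ 1 := by
      rw [eventually_all]
      intro j
      have hc : ContinuousAt (fun s : ℂ_[p] => (Δ.P j).eval 0 * s ^ M) 0 := by fun_prop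
      have h5 : (fun s : ℂ_[p] => (Δ.P j).eval 0 * s ^ M) 0 ≠ 1 := by
        simp [hMpos.ne']
      exact (hc.eventually_ne h5).filter_mono nhdsWithin_le_nhds
    filter_upwards [h2, h3, h4, self_mem_nhdsWithin] with s hs2 hs3 hs4 hs5 y hy hinj
    rw [zero_add] at hy
    have hsM : s ^ M ≠ 0 := pow_ne_zero _ hs5
    have hy0 : ∀ j, y j ≠ 0 := by
      intro j h0
      have h6 := hy j
      rw [h0] at h6
      apply hs4 j
      rw [h6, inv_mul_cancel₀ hsM]
    have h6 : ∀ j, ∃ k, (y j)⁻¹ = x j k s := by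
      intro j
      apply hs3 j
      have h7 := hy j
      have h8 := eval_rev (Δ.P j) (y j)⁻¹ (inv_ne_zero (hy0 j))
      rw [inv_inv, h7] at h8
      rw [hFev, inv_pow]
      have h9 : y j ^ m j ≠ 0 := pow_ne_zero _ (hy0 j)
      rw [inv_eq_iff_eq_inv, mul_inv]
      have h10 : (Δ.P j).reverse.eval (y j)⁻¹ ≠ 0 := by
        intro h0
        rw [h0, mul_zero] at h8
        exact inv_ne_zero hsM h8
      rw [h8]
      change y j ^ m j = y j ^ m j * _ * _
      rw [mul_assoc, mul_inv_cancel₀ h10, mul_one]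
    choose k hk using h6
    have h7 := hs2 k
    simp only [← hk, inv_inv] at h7
    exact h7 hinj
  exact of_unif (Q := fun t => Good L Δ ξ t⁻¹) hMpos 0 h1

theorem glob {p : ℕ} [Fact p.Prime] {L : ℂ_[p] → ℂ_[p]} (hL : IsIwasawaLog p L) {d n : ℕ}
    (Δ : Dat ℂ_[p] d n) (ξ : Fin n → ℂ_[p]) (hξ : ∀ l, ξ l ≠ 0) (hξ0 : ∑ l, ξ l = 0)
    (hU : ∀ i j l, (Δ.U i j l).Monic) (e : Fin d → Fin d → ℕ)
    (hUd : ∀ i j l, (Δ.U i j l).natDegree = e i j) (N : ℕ) (hN : 0 < N) :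
    {t : ℤ | ¬ Good L Δ ξ (((t : ℂ_[p]) ^ N)⁻¹)}.Finite := by
  by_contra hcon
  have hinf : {t : ℤ | ¬ Good L Δ ξ (((t : ℂ_[p]) ^ N)⁻¹)}.Infinite := hcon
  obtain ⟨t₀, ht₀⟩ := acc_int p _ hinf
  have hfreq : ∃ᶠ t in 𝓝[≠] t₀, ¬ Good L Δ ξ ((t ^ N)⁻¹) := by
    refine ht₀.mono ?_
    rintro _ ⟨x, hx, rfl⟩
    exact hx
  apply hfreq
  simp only [not_not]
  by_cases h0 : t₀ = 0
  · subst h0
    have h1 := loc_inf hL Δ ξ hξ hξ0 hU e hUd
    have h2 : Tendsto (fun t : ℂ_[p] => t ^ N) (𝓝[≠] 0) (𝓝[≠] 0) := by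
      rw [tendsto_nhdsWithin_iff]
      refine ⟨?_, ?_⟩
      · have hc : ContinuousAt (fun t : ℂ_[p] => t ^ N) 0 := by fun_prop
        have h3 := hc.tendsto
        simp only [zero_pow hN.ne'] at h3
        exact h3.mono_left nhdsWithin_le_nhds
      · filter_upwards [self_mem_nhdsWithin] with t ht
        exact pow_ne_zero _ ht
    exact h2.eventually h1
  · have h1 := loc_fin hL Δ ξ hξ hξ0 ((t₀ ^ N)⁻¹) (inv_ne_zero (pow_ne_zero _ h0))
    have h2 : Tendsto (fun t : ℂ_[p] => (t ^ N)⁻¹) (𝓝[≠] t₀) (𝓝[≠] ((t₀ ^ N)⁻¹)) := by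
      rw [tendsto_nhdsWithin_iff]
      refine ⟨?_, ?_⟩
      · have hc : ContinuousAt (fun t : ℂ_[p] => (t ^ N)⁻¹) t₀ :=
          ContinuousAt.inv₀ (by fun_prop) (pow_ne_zero _ h0)
        exact hc.tendsto.mono_left nhdsWithin_le_nhds
      · have hfin : {t : ℂ_[p] | t ^ N = t₀ ^ N}.Finite := by
          classical
          have h3 : (X ^ N - C (t₀ ^ N) : ℂ_[p][X]) ≠ 0 := X_pow_sub_C_ne_zero hN _
          refine (X ^ N - C (t₀ ^ N) : ℂ_[p][X]).roots.toFinset.finite_toSet.subset ?_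
          intro t ht
          simp only [Finset.mem_coe, Multiset.mem_toFinset]
          rw [mem_roots h3, IsRoot.def, eval_sub, eval_pow, eval_X, eval_C]
          exact sub_eq_zero.2 ht
        have h4 : ∀ᶠ t in 𝓝[≠] t₀, t ∉ {t : ℂ_[p] | t ^ N = t₀ ^ N} \ {t₀} := by
          have h5 : ({t : ℂ_[p] | t ^ N = t₀ ^ N} \ {t₀}).Finite := hfin.subset Set.sdiff_subset
          have h6 : ({t : ℂ_[p] | t ^ N = t₀ ^ N} \ {t₀})ᶜ ∈ 𝓝 t₀ :=
            h5.isClosed.isOpen_compl.mem_nhds (by simp)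
          exact mem_nhdsWithin_of_mem_nhds h6
        filter_upwards [h4, self_mem_nhdsWithin] with t ht1 ht2 h5
        apply ht1
        exact ⟨inv_injective h5, ht2⟩
    exact h2.eventually h1

end Pool.Agent.V7H76.CU
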