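import Mathlib
import Pool.Agent.V7H76.CU.Loc
import Pool.Agent.W289.SL.LogEx

set_option autoImplicit false

/-!
# The data attached to cube roots
-/

namespace Pool.Agent.V7H76.CU

open Polynomial
open Pool.Agent.W289.SL

section

variable {C : Type} [Field C] [CharZero C] {d : ℕ}

lemma fac_aux (x z a b : C) (h : b - a = x ^ 3) (hz : z ^ 2 + z + 1 = 0) :
    ∏ l : Fin 3, (X - Polynomial.C (z ^ (2 * (l : ℕ)) * x)) =
      (X ^ 3 + Polynomial.C a) - Polynomial.C b := by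
  have h1 : Polynomial.C b = Polynomial.C a + Polynomial.C x ^ 3 := by
    rw [← Polynomial.C_pow, ← h, ← Polynomial.C_add]
    congr 1
    ring
  have hz' : Polynomial.C z ^ 2 + Polynomial.C z + 1 = 0 := by
    rw [← Polynomial.C_pow, ← Polynomial.C_add, ← Polynomial.C_1, ← Polynomial.C_add, hz,
      Polynomial.C_0]
  rw [h1, Fin.prod_univ_three]
  simp only [Fin.val_zero, Fin.val_one, Fin.val_two, mul_zero, mul_one, pow_zero, one_mul,
    Polynomial.C_mul, Polynomial.C_pow]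
  norm_num
  set Z := Polynomial.C z
  set V := Polynomial.C x
  have hz3 : Z ^ 3 = 1 := by linear_combination (Z - 1) * hz'
  have hz4 : Z ^ 4 = Z := by linear_combination Z * hz3
  have hz6 : Z ^ 6 = 1 := by linear_combination (Z ^ 3 + 1) * hz3
  linear_combination (-X ^ 2 * V + X * V ^ 2) * (hz4 + hz') + (X * V ^ 2 - V ^ 3) * (hz6)

lemma sep_aux (a : C) (b : Fin d → C) (hb : Function.Injective b) (hab : ∀ i, b i - a ≠ 0) :
    (∏ i, ((X ^ 3 + Polynomial.C a) - Polynomial.C (b i))).Separable := by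
  apply separable_prod'
  · intro i _ j _ hij
    have h1 : (X ^ 3 + Polynomial.C a) - Polynomial.C (b i) =
      ((X ^ 3 + Polynomial.C a) - Polynomial.C (b j)) + Polynomial.C (b j - b i) := by
      rw [Polynomial.C_sub]; ring
    rw [h1]
    have h2 : b j - b i ≠ 0 := sub_ne_zero.2 fun h => hij (hb h.symm)
    refine ⟨Polynomial.C (b j - b i)⁻¹, -Polynomial.C (b j - b i)⁻¹, ?_⟩
    have h3 : Polynomial.C (b j - b i)⁻¹ * Polynomial.C (b j - b i) = 1 := by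
      rw [← Polynomial.C_mul, inv_mul_cancel₀ h2, Polynomial.C_1]
    linear_combination h3
  · intro i _
    have h1 : (X ^ 3 + Polynomial.C a) - Polynomial.C (b i) = X ^ 3 - Polynomial.C (b i - a) := by
      rw [Polynomial.C_sub]; ring
    rw [h1]
    exact separable_X_pow_sub_C _ (by norm_num) (hab i)

/-- the data -/
noncomputable def dk (a : Fin d → C) (b : Fin d → C) (hb : Function.Injective b)
    (z : Fin d → C) (hz : ∀ j, z j ^ 2 + z j + 1 = 0)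
    (β : Fin d → Fin d → C) (hβ : ∀ i j, b i - a j = β i j ^ 3) (hβ0 : ∀ i j, β i j ≠ 0) :
    Dat C d 3 where
  b := b
  binj := hb
  pi j := X ^ 3 + Polynomial.C (a j)
  U i j l := X - Polynomial.C (z j ^ (2 * (l : ℕ)) * β i j)
  pim j := monic_X_pow_add_C _ (by norm_num)
  pid j := by rw [natDegree_X_pow_add_C]; norm_num
  fac i j := fac_aux _ _ _ _ (hβ i j) (hz j)
  sep j := sep_aux _ _ hb fun i => by rw [hβ i j]; exact pow_ne_zero _ (hβ0 i j)

end

/-- the exceptional set, for given restrictions to the quadratic field -/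
theorem exc_one (p : ℕ) [Fact p.Prime] {d : ℕ} (hd : 0 < d) (b : Fin d → ℤ)
    (hb : Function.Injective b) (a : Fin d → ℂ_[p]) (z : Fin d → ℂ_[p])
    (hz : ∀ j, z j ^ 2 + z j + 1 = 0) (β : Fin d → Fin d → ℂ_[p])
    (hβ : ∀ i j, (b i : ℂ_[p]) - a j = β i j ^ 3) (hβ0 : ∀ i j, β i j ≠ 0)
    (ρ : ℂ_[p]) (hρ : ρ ^ 2 + ρ + 1 = 0) (L : ℂ_[p] → ℂ_[p]) (hL : IsIwasawaLog p L) :
    ∃ S : Set ℤ, S.Finite ∧ ∀ t : ℤ, t ∉ S → ∀ y : Fin d → ℂ_[p],
      (∀ j, (∏ i, (y j ^ 3 + a j - b i)) * (t : ℂ_[p]) ^ (3 * d) = 1) →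
      (Function.Injective fun j => y j ^ 3 + a j) →
      (Matrix.of fun i j => ∑ l : Fin 3, ρ ^ (l : ℕ) *
        L (y j - z j ^ (2 * (l : ℕ)) * β i j)).det ≠ 0 := by
  have hb' : Function.Injective fun i => (b i : ℂ_[p]) := fun i j h => hb (Int.cast_injective h)
  have hρ0 : ρ ≠ 0 := by
    rintro rfl
    norm_num at hρ
  set Δ : Dat ℂ_[p] d 3 := dk a (fun i => (b i : ℂ_[p])) hb' z hz β hβ hβ0 with hΔ
  have hfin := glob hL Δ (fun l => ρ ^ (l : ℕ)) (fun l => pow_ne_zero _ hρ0) (by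
      rw [Fin.sum_univ_three]
      simp only [Fin.val_zero, Fin.val_one, Fin.val_two, pow_zero, pow_one]
      linear_combination hρ) (fun i j l => monic_X_sub_C _) (fun _ _ => 1)
    (fun i j l => by
      change (X - Polynomial.C (z j ^ (2 * (l : ℕ)) * β i j)).natDegree = 1
      rw [natDegree_X_sub_C]) (3 * d) (by omega)
  refine ⟨_, hfin, ?_⟩
  intro t ht y hy hinj
  rw [Set.mem_ofPred_eq, not_not] at ht
  have h1 := ht y ?_ ?_
  · simpa [hΔ, dk] using h1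
  · intro j
    have h2 : (Δ.P j).eval (y j) = ∏ i, (y j ^ 3 + a j - b i) := by
      simp [hΔ, dk, Dat.P, eval_prod]
    rw [h2]
    exact eq_inv_of_mul_eq_one_left (hy j)
  · intro j j' h
    apply hinj
    simpa [hΔ, dk] using h

/-- the exceptional set -/
theorem exc_set (p : ℕ) [Fact p.Prime] (k : Type) [Field k] [NumberField k] {d : ℕ} (hd : 0 < d)
    (ω : k) (hω : ω ^ 2 + ω + 1 = 0)
    (b : Fin d → ℤ) (hb : Function.Injective b) (a : k) (β : Fin d → k)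
    (hβ : ∀ i, (b i : k) - a = β i ^ 3) (hβ0 : ∀ i, β i ≠ 0)
    (L : ℂ_[p] → ℂ_[p]) (hL : IsIwasawaLog p L) :
    ∃ S : Set ℤ, S.Finite ∧ ∀ t : ℤ, t ∉ S → ∀ (ρ : ℂ_[p]), ρ ^ 2 + ρ + 1 = 0 →
      ∀ (ι : Fin d → (k →+* ℂ_[p])) (y : Fin d → ℂ_[p]),
      (∀ j, (∏ i, (y j ^ 3 + ι j a - b i)) * (t : ℂ_[p]) ^ (3 * d) = 1) →
      (Function.Injective fun j => y j ^ 3 + ι j a) →
      (Matrix.of fun i j => ∑ l : Fin 3, ρ ^ (l : ℕ) *
        L (y j - ι j ω ^ (2 * (l : ℕ)) * ι j (β i))).det ≠ 0 := by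
  have h1 : ∀ (ρ : {ρ : ℂ_[p] // ρ ^ 2 + ρ + 1 = 0}) (ι : Fin d → (k →+* ℂ_[p])),
      ∃ S : Set ℤ, S.Finite ∧ ∀ t : ℤ, t ∉ S →
      ∀ y : Fin d → ℂ_[p], (∀ j, (∏ i, (y j ^ 3 + ι j a - b i)) * (t : ℂ_[p]) ^ (3 * d) = 1) →
      (Function.Injective fun j => y j ^ 3 + ι j a) →
      (Matrix.of fun i j => ∑ l : Fin 3, (ρ : ℂ_[p]) ^ (l : ℕ) *
        L (y j - ι j ω ^ (2 * (l : ℕ)) * ι j (β i))).det ≠ 0 := by
    intro ρ ι
    apply exc_one p hd b hb (fun j => ι j a) (fun j => ι j ω) _ (fun i j => ι j (β i)) _ _ ρ.1 ρ.2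
      L hL
    · intro j
      have := congrArg (ι j) hω
      simpa using this
    · intro i j
      have := congrArg (ι j) (hβ i)
      simpa using this
    · intro i j
      rw [Ne, map_eq_zero]
      exact hβ0 i
  have hfin : Finite {ρ : ℂ_[p] // ρ ^ 2 + ρ + 1 = 0} := by
    classical
    have h3 : (X ^ 2 + X + 1 : ℂ_[p][X]) ≠ 0 := by
      intro h
      have := congrArg (fun q : ℂ_[p][X] => q.eval 0) h
      simp at this
    have h4 : {ρ : ℂ_[p] | ρ ^ 2 + ρ + 1 = 0}.Finite := by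
      refine (X ^ 2 + X + 1 : ℂ_[p][X]).roots.toFinset.finite_toSet.subset ?_
      intro t ht
      simp only [Finset.mem_coe, Multiset.mem_toFinset]
      rw [mem_roots h3, IsRoot.def]
      simpa using ht
    exact h4.to_subtype
  choose S hS hS' using h1
  refine ⟨⋃ ρ, ⋃ ι, S ρ ι, Set.finite_iUnion fun ρ => Set.finite_iUnion (hS ρ), ?_⟩
  intro t ht ρ hρ ι
  apply hS' ⟨ρ, hρ⟩ ι t
  intro h
  exact ht (Set.mem_iUnion.2 ⟨⟨ρ, hρ⟩, Set.mem_iUnion.2 ⟨ι, h⟩⟩)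

end Pool.Agent.V7H76.CU
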