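import Mathlib
import Pool.Agent.W289.SL.Crit

set_option autoImplicit false
set_option linter.unusedSectionVars false

/-!
# A criterion for cubic extensions
-/

namespace Pool.Agent.V7H76.CU

open NumberField TensorProduct Pool.Agent.W289.SL

variable {p : ℕ} [Fact p.Prime]

section

variable {K H : Type} [Field K] [NumberField K] [Field H] [NumberField H] [Algebra K H]

/-- three times the projector on the eigenspace -/
noncomputable def pr (τ : H ≃ₐ[K] H) (r : ℂ_[p]) : UM p H →ₗ[ℂ_[p]] UM p H :=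
  LinearMap.id + (r ^ 2) • actLin p (τ : H →+* H) +
    r • (actLin p (τ : H →+* H) ∘ₗ actLin p (τ : H →+* H))

lemma pr_apply (τ : H ≃ₐ[K] H) (r : ℂ_[p]) (z : UM p H) :
    pr τ r z = z + (r ^ 2) • actLin p (τ : H →+* H) z +
      r • actLin p (τ : H →+* H) (actLin p (τ : H →+* H) z) := rfl

lemma cube_one {r : ℂ_[p]} (hr : r ^ 2 + r + 1 = 0) : r ^ 3 = 1 := by
  linear_combination (r - 1) * hr

lemma unitHom_cube (τ : H ≃ₐ[K] H) (hτ : ∀ x : H, τ (τ (τ x)) = x) (u : Additive (𝓞 H)ˣ) :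
    unitHom (τ : H →+* H) (unitHom (τ : H →+* H) (unitHom (τ : H →+* H) u)) = u := by
  apply Additive.toMul.injective
  apply Units.ext
  apply RingOfIntegers.ext
  exact hτ _

lemma actLin_cube (τ : H ≃ₐ[K] H) (hτ : ∀ x : H, τ (τ (τ x)) = x) (z : UM p H) :
    actLin p (τ : H →+* H) (actLin p (τ : H →+* H) (actLin p (τ : H →+* H) z)) = z := by
  induction z using TensorProduct.induction_on with
  | zero => simp
  | add z1 z2 h1 h2 => rw [map_add, map_add, map_add, h1, h2]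
  | tmul c u => rw [actLin_tmul, actLin_tmul, actLin_tmul, unitHom_cube τ hτ]

lemma pr_act (τ : H ≃ₐ[K] H) (hτ : ∀ x : H, τ (τ (τ x)) = x) {r : ℂ_[p]}
    (hr : r ^ 2 + r + 1 = 0) (z : UM p H) :
    pr τ r (actLin p (τ : H →+* H) z) = r • pr τ r z := by
  rw [pr_apply, pr_apply, actLin_cube τ hτ, smul_add, smul_add, smul_smul, smul_smul]
  have h1 : r * r ^ 2 = 1 := by rw [← cube_one hr]; ring
  rw [h1, one_smul, ← pow_two]
  abel

lemma pr_inc (τ : H ≃ₐ[K] H) {r : ℂ_[p]} (hr : r ^ 2 + r + 1 = 0) (c : ℂ_[p])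
    (u : Additive (𝓞 K)ˣ) : pr τ r (c ⊗ₜ unitInc K H u) = 0 := by
  rw [pr_apply, actLin_tmul, unitHom_unitInc, actLin_tmul, unitHom_unitInc]
  have h1 : (c ⊗ₜ[ℤ] unitInc K H u : UM p H) + r ^ 2 • (c ⊗ₜ[ℤ] unitInc K H u) +
      r • (c ⊗ₜ[ℤ] unitInc K H u) = (r ^ 2 + r + 1) • (c ⊗ₜ[ℤ] unitInc K H u) := by
    rw [add_smul, add_smul, one_smul]
    abel
  rw [h1, hr, zero_smul]

lemma tmul_zsmul' (b : ℤ) (w : Additive (𝓞 H)ˣ) (c : ℂ_[p]) :
    (c ⊗ₜ[ℤ] (b • w) : UM p H) = (b : ℂ_[p]) • (c ⊗ₜ[ℤ] w) := by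
  have h5 := map_zsmul (TensorProduct.mk ℤ ℂ_[p] (Additive (𝓞 H)ˣ) c) b w
  rw [Int.cast_smul_eq_zsmul]
  exact h5

lemma int_indep {r : ℂ_[p]} (hr : r ^ 2 + r + 1 = 0) (b b' : ℤ)
    (h : (b : ℂ_[p]) + (b' : ℂ_[p]) * r = 0) : b = 0 ∧ b' = 0 := by
  have h1 : ((b ^ 2 - b * b' + b' ^ 2 : ℤ) : ℂ_[p]) = 0 := by
    push_cast
    have h2 : (b : ℂ_[p]) = -(b' : ℂ_[p]) * r := by linear_combination h
    rw [h2]
    linear_combination (b' : ℂ_[p]) ^ 2 * hr
  have h2 : b ^ 2 - b * b' + b' ^ 2 = 0 := by exact_mod_cast h1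
  constructor
  · nlinarith [sq_nonneg (2 * b' - b), sq_nonneg b]
  · nlinarith [sq_nonneg (2 * b - b'), sq_nonneg b']

lemma log_pr {L : ℂ_[p] → ℂ_[p]} (hL : IsIwasawaLog p L) (σ : H →+* ℂ_[p]) (τ : H ≃ₐ[K] H)
    (r : ℂ_[p]) (y : (𝓞 H)ˣ) :
    logLin hL σ (pr τ r ((1 : ℂ_[p]) ⊗ₜ[ℤ] Additive.ofMul y)) =
      L (σ (y : 𝓞 H)) + r ^ 2 * L (σ (τ (y : 𝓞 H))) + r * L (σ (τ (τ (y : 𝓞 H)))) := by
  rw [pr_apply, actLin_tmul, actLin_tmul, map_add, map_add, map_smul, map_smul, logLin_tmul,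
    logLin_tmul, logLin_tmul, one_mul, one_mul, one_mul, smul_eq_mul, smul_eq_mul]
  rfl

/-- **Criterion.** -/
theorem criterion [IsTotallyComplex K] (h3 : Module.finrank K H = 3) (d : ℕ)
    (hd : Module.finrank ℚ K = 2 * d) (τ : H ≃ₐ[K] H) (hτ : ∀ x : H, τ (τ (τ x)) = x)
    {r : ℂ_[p]} (hr : r ^ 2 + r + 1 = 0) (y : Fin d → (𝓞 H)ˣ)
    {L : ℂ_[p] → ℂ_[p]} (hL : IsIwasawaLog p L) (σ : Fin d → (H →+* ℂ_[p]))
    (hdet : ∀ c : Fin d → ℂ_[p], (∀ j, ∑ i, c i * (L (σ j (y i : 𝓞 H)) +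
      r ^ 2 * L (σ j (τ (y i : 𝓞 H))) + r * L (σ j (τ (τ (y i : 𝓞 H))))) = 0) → c = 0)
    (x : UM p H) (hx : actLin p (τ : H →+* H) x = r • x) (hx0 : ∀ j, logLin hL (σ j) x = 0) :
    x = 0 := by
  classical
  set Y : Fin d → Additive (𝓞 H)ˣ := fun i => Additive.ofMul (y i) with hY
  set A : Additive (𝓞 H)ˣ →+ Additive (𝓞 H)ˣ := unitHom (τ : H →+* H) with hA
  -- linear relations between the projections
  have hrel : ∀ c : Fin d → ℂ_[p],
      ∑ i, c i • pr τ r ((1 : ℂ_[p]) ⊗ₜ[ℤ] Y i) = 0 → c = 0 := by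
    intro c hc
    apply hdet
    intro j
    have h1 := congrArg (logLin hL (σ j)) hc
    rw [map_sum, map_zero] at h1
    rw [← h1]
    refine Finset.sum_congr rfl fun i _ => ?_
    rw [map_smul, log_pr, smul_eq_mul]
  have hpA : ∀ u : Additive (𝓞 H)ˣ, pr τ r ((1 : ℂ_[p]) ⊗ₜ[ℤ] A u) =
      r • pr τ r ((1 : ℂ_[p]) ⊗ₜ[ℤ] u) := by
    intro u
    rw [← pr_act τ hτ hr, actLin_tmul]
  -- the span
  set V : Submodule ℂ_[p] (UM p H) :=
    Submodule.span ℂ_[p] (Set.range fun i => pr τ r ((1 : ℂ_[p]) ⊗ₜ[ℤ] Y i)) with hV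
  have hHc : IsTotallyComplex H := isTotallyComplex_of_algebra K H
  have hrK : 2 * (Units.rank K + 1) = Module.finrank ℚ K := rank_complex K
  have hrH : 2 * (Units.rank H + 1) = Module.finrank ℚ H := rank_complex H
  have hKH : Module.finrank ℚ K * Module.finrank K H = Module.finrank ℚ H :=
    Module.finrank_mul_finrank ℚ K H
  obtain ⟨e, he⟩ := exists_linearIndependent_of_le_finrank (R := ℤ) (M := Additive (𝓞 K)ˣ)
    (n := Units.rank K) (by rw [Units.finrank_eq])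
  have hone : ∀ u : Additive (𝓞 H)ˣ, pr τ r ((1 : ℂ_[p]) ⊗ₜ[ℤ] u) ∈ V := by
    intro u
    set v : ((Fin d ⊕ Fin d) ⊕ Fin 2) ⊕ Fin (Units.rank K) → Additive (𝓞 H)ˣ :=
      Sum.elim (Sum.elim (Sum.elim Y (fun i => A (Y i))) ![u, A u])
        (fun j => unitInc K H (e j)) with hv
    have h1 : ¬ LinearIndependent ℤ v := by
      intro h
      have h3' := h.fintype_card_le_finrank
      rw [Units.finrank_eq] at h3'
      simp only [Fintype.card_sum, Fintype.card_fin] at h3'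
      rw [h3] at hKH
      omega
    rw [Fintype.not_linearIndependent_iff] at h1
    obtain ⟨g, hg, i0, hi0⟩ := h1
    rw [Fintype.sum_sum_type, Fintype.sum_sum_type, Fintype.sum_sum_type, Fin.sum_univ_two] at hg
    simp only [hv, Sum.elim_inl, Sum.elim_inr, Matrix.cons_val_zero, Matrix.cons_val_one] at hg
    set a : Fin d → ℤ := fun i => g (Sum.inl (Sum.inl (Sum.inl i))) with ha
    set a' : Fin d → ℤ := fun i => g (Sum.inl (Sum.inl (Sum.inr i))) with ha'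
    set b : ℤ := g (Sum.inl (Sum.inr 0)) with hb
    set b' : ℤ := g (Sum.inl (Sum.inr 1)) with hb'
    set c : Fin (Units.rank K) → ℤ := fun i => g (Sum.inr i) with hc
    change ∑ i, a i • Y i + ∑ i, a' i • A (Y i) + (b • u + b' • A u) +
      ∑ j, c j • unitInc K H (e j) = 0 at hg
    have hg2 := congrArg (fun z => pr τ r ((1 : ℂ_[p]) ⊗ₜ[ℤ] z)) hg
    simp only [tmul_add, tmul_sum, map_add, map_sum, tmul_zero, map_zero, tmul_zsmul', map_smul,
      hpA, pr_inc τ hr, smul_zero, Finset.sum_const_zero, add_zero] at hg2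
    have hg3 : ∑ i, ((a i : ℂ_[p]) + (a' i : ℂ_[p]) * r) • pr τ r ((1 : ℂ_[p]) ⊗ₜ[ℤ] Y i) +
        ((b : ℂ_[p]) + (b' : ℂ_[p]) * r) • pr τ r ((1 : ℂ_[p]) ⊗ₜ[ℤ] u) = 0 := by
      rw [← hg2, ← Finset.sum_add_distrib]
      congr 1
      · refine Finset.sum_congr rfl fun i _ => ?_
        rw [add_smul, mul_smul]
      · rw [add_smul, mul_smul]
    by_cases hbb : (b : ℂ_[p]) + (b' : ℂ_[p]) * r = 0
    · exfalso
      rw [hbb, zero_smul, add_zero] at hg3
      have h5 := hrel _ hg3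
      have haa : ∀ i, a i = 0 ∧ a' i = 0 := fun i => int_indep hr _ _ (congrFun h5 i)
      obtain ⟨hb0, hb'0⟩ := int_indep hr _ _ hbb
      have h6 : ∑ i, a i • Y i = 0 := Finset.sum_eq_zero fun i _ => by rw [(haa i).1, zero_smul]
      have h6' : ∑ i, a' i • A (Y i) = 0 :=
        Finset.sum_eq_zero fun i _ => by rw [(haa i).2, zero_smul]
      rw [h6, h6', hb0, hb'0, zero_smul, zero_smul, add_zero, add_zero, zero_add] at hg
      have h7 : unitInc K H (∑ j, c j • e j) = 0 := by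
        rw [map_sum, ← hg]
        refine Finset.sum_congr rfl fun i _ => by rw [map_zsmul]
      have h8 : ∑ j, c j • e j = 0 := unitInc_injective (by rw [h7, map_zero])
      have hc0 := (Fintype.linearIndependent_iff.1 he) c h8
      rcases i0 with ((i | i) | i) | i
      · exact hi0 (haa i).1
      · exact hi0 (haa i).2
      · fin_cases i
        · exact hi0 hb0
        · exact hi0 hb'0
      · exact hi0 (hc0 i)
    · have h5 : pr τ r ((1 : ℂ_[p]) ⊗ₜ[ℤ] u) = -((b : ℂ_[p]) + (b' : ℂ_[p]) * r)⁻¹ •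
          ∑ i, ((a i : ℂ_[p]) + (a' i : ℂ_[p]) * r) • pr τ r ((1 : ℂ_[p]) ⊗ₜ[ℤ] Y i) := by
        rw [eq_neg_of_add_eq_zero_left hg3, smul_neg, neg_smul, neg_neg, smul_smul,
          inv_mul_cancel₀ hbb, one_smul]
      rw [h5]
      apply V.smul_mem
      apply V.sum_mem
      intro i _
      apply V.smul_mem
      exact Submodule.subset_span ⟨i, rfl⟩
  have hmem : ∀ z : UM p H, pr τ r z ∈ V := by
    intro z
    induction z using TensorProduct.induction_on with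
    | zero => rw [map_zero]; exact V.zero_mem
    | add z1 z2 h1 h2 =>
      rw [map_add]
      exact V.add_mem h1 h2
    | tmul c u =>
      have h1 : (c ⊗ₜ[ℤ] u : UM p H) = c • ((1 : ℂ_[p]) ⊗ₜ[ℤ] u) := by
        rw [TensorProduct.smul_tmul', smul_eq_mul, mul_one]
      rw [h1, map_smul]
      exact V.smul_mem _ (hone u)
  have hxV : x ∈ V := by
    have h4 := hmem x
    have h5 : pr τ r x = (3 : ℂ_[p]) • x := by
      rw [pr_apply, hx, map_smul, hx, smul_smul, smul_smul, smul_smul]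
      have e1 : r ^ 2 * r = 1 := by rw [← cube_one hr]; ring
      have e2 : r * (r * r) = 1 := by rw [← cube_one hr]; ring
      rw [e1, mul_assoc, e2, one_smul]
      have e3 : (3 : ℂ_[p]) = 1 + 1 + 1 := by norm_num
      rw [e3, add_smul, add_smul, one_smul]
    rw [h5] at h4
    have h6 := V.smul_mem (3 : ℂ_[p])⁻¹ h4
    rwa [smul_smul, inv_mul_cancel₀ three_ne_zero, one_smul] at h6
  obtain ⟨c, hc⟩ := (Submodule.mem_span_range_iff_exists_fun ℂ_[p]).1 hxV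
  have hc0 : c = 0 := by
    apply hdet
    intro j
    rw [← hx0 j, ← hc, map_sum]
    refine Finset.sum_congr rfl fun i _ => ?_
    rw [map_smul, log_pr, smul_eq_mul]
  rw [← hc, hc0]
  simp

end

end Pool.Agent.V7H76.CU
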