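import Mathlib
import Pool.Agent.V7H76.CU.Crit

set_option autoImplicit false

/-!
# Automorphisms of a cubic Kummer extension
-/

namespace Pool.Agent.V7H76.CU

open NumberField Pool.Agent.W289.SL

lemma fix_root {K H : Type} [Field K] [Field H] [CharZero K] [Algebra K H]
    (h3 : Module.finrank K H = 3) {α : K} (hα : ∀ x : K, x ^ 3 ≠ α) {θ : H}
    (hθ : θ ^ 3 = algebraMap K H α) (τ : H ≃ₐ[K] H) (h : τ θ = θ) : τ = 1 := by
  have hfd : FiniteDimensional K H := Module.finite_of_finrank_pos (by omega)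
  have hint : IsIntegral K θ := Algebra.IsIntegral.isIntegral θ
  have htop : IntermediateField.adjoin K {θ} = ⊤ := by
    have h3 : Module.finrank K (IntermediateField.adjoin K {θ}) *
        Module.finrank (IntermediateField.adjoin K {θ}) H = 3 := by
      rw [Module.finrank_mul_finrank, h3]
    have h4 : Module.finrank K (IntermediateField.adjoin K {θ}) ≠ 1 := by
      intro h5
      rw [IntermediateField.finrank_eq_one_iff, IntermediateField.adjoin_simple_eq_bot_iff,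
        IntermediateField.mem_bot] at h5
      obtain ⟨t, ht⟩ := h5
      apply hα t
      apply (algebraMap K H).injective
      rw [← hθ, ← ht, map_pow]
    have h5 : Module.finrank K (IntermediateField.adjoin K {θ}) ∣ 3 := Dvd.intro _ h3
    have h6 : Module.finrank K (IntermediateField.adjoin K {θ}) = 3 :=
      ((Nat.dvd_prime Nat.prime_three).1 h5).resolve_left h4
    rw [h6] at h3
    have h7 : Module.finrank (IntermediateField.adjoin K {θ}) H = 1 := by omega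
    exact IntermediateField.finrank_eq_one_iff_eq_top.1 h7
  have htop' : Algebra.adjoin K {θ} = ⊤ := by
    rw [← IntermediateField.adjoin_simple_toSubalgebra_of_isAlgebraic
      (Algebra.IsAlgebraic.isAlgebraic _), htop]
    rfl
  have h8 : (τ : H →ₐ[K] H) = ((1 : H ≃ₐ[K] H) : H →ₐ[K] H) := by
    apply AlgHom.ext_of_adjoin_eq_top htop'
    intro x hx
    rw [Set.mem_singleton_iff] at hx
    subst hx
    exact h
  ext x
  exact congrArg (fun f : H →ₐ[K] H => f x) h8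

lemma root_cases {H : Type} [Field H] {ω : H} (hω : ω ^ 2 + ω + 1 = 0) {x y : H}
    (h : x ^ 3 = y ^ 3) : x = y ∨ x = ω * y ∨ x = ω ^ 2 * y := by
  have hω3 : ω ^ 3 = 1 := by linear_combination (ω - 1) * hω
  have h1 : (x - y) * ((x - ω * y) * (x - ω ^ 2 * y)) = 0 := by
    linear_combination h + (-x ^ 2 * y + x * y ^ 2) * hω + (x * y ^ 2 - y ^ 3) * hω3
  rcases mul_eq_zero.1 h1 with h2 | h2
  · exact Or.inl (sub_eq_zero.1 h2)
  · rcases mul_eq_zero.1 h2 with h3 | h3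
    · exact Or.inr (Or.inl (sub_eq_zero.1 h3))
    · exact Or.inr (Or.inr (sub_eq_zero.1 h3))

/-- a generator of the Galois group on which the character is nontrivial -/
lemma exists_gen {p : ℕ} [Fact p.Prime] {K H : Type} [Field K] [Field H] [CharZero K]
    [Algebra K H] (h3 : Module.finrank K H = 3) {ω : K} (hω : ω ^ 2 + ω + 1 = 0)
    {α : K} (hα : ∀ x : K, x ^ 3 ≠ α) {θ : H} (hθ : θ ^ 3 = algebraMap K H α)
    (χ : (H ≃ₐ[K] H) →* ℂ_[p]ˣ) (hχ : χ ≠ 1) :
    ∃ τ : H ≃ₐ[K] H, τ θ = algebraMap K H ω * θ ∧ (∀ x, τ (τ (τ x)) = x) ∧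
      ((χ τ : ℂ_[p]ˣ) : ℂ_[p]) ^ 2 + ((χ τ : ℂ_[p]ˣ) : ℂ_[p]) + 1 = 0 := by
  set W : H := algebraMap K H ω with hW
  have hW1 : W ^ 2 + W + 1 = 0 := by
    have := congrArg (algebraMap K H) hω
    simpa using this
  have hW3 : W ^ 3 = 1 := by linear_combination (W - 1) * hW1
  obtain ⟨τ, hτ⟩ : ∃ τ, χ τ ≠ 1 := by
    by_contra hcon
    push Not at hcon
    exact hχ (MonoidHom.ext hcon)
  have hτW : ∀ τ : H ≃ₐ[K] H, τ W = W := fun τ => τ.commutes _
  have hτ1 : τ ≠ 1 := by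
    rintro rfl
    exact hτ (map_one χ)
  have hcases : τ θ = W * θ ∨ τ θ = W ^ 2 * θ := by
    have h1 : (τ θ) ^ 3 = θ ^ 3 := by
      rw [← map_pow, hθ, AlgEquiv.commutes]
    rcases root_cases hW1 h1 with h | h | h
    · exact absurd (fix_root h3 hα hθ τ h) hτ1
    · exact Or.inl h
    · exact Or.inr h
  have hcube : ∀ τ : H ≃ₐ[K] H, τ θ = W * θ → τ ^ 3 = 1 := by
    intro τ h
    apply fix_root h3 hα hθ
    have h2 : (τ ^ 3) θ = τ (τ (τ θ)) := by
      rw [pow_succ, pow_succ, pow_one]; rfl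
    rw [h2, h, map_mul, hτW, h, map_mul, map_mul, hτW, h]
    linear_combination θ * hW3
  have key : ∀ τ : H ≃ₐ[K] H, τ θ = W * θ → χ τ ≠ 1 → τ θ = W * θ ∧ (∀ x, τ (τ (τ x)) = x) ∧
      ((χ τ : ℂ_[p]ˣ) : ℂ_[p]) ^ 2 + ((χ τ : ℂ_[p]ˣ) : ℂ_[p]) + 1 = 0 := by
    intro τ h1 h2
    have h4 := hcube τ h1
    refine ⟨h1, ?_, ?_⟩
    · intro x
      have h5 : (τ ^ 3) x = τ (τ (τ x)) := by
        rw [pow_succ, pow_succ, pow_one]; rfl
      rw [← h5, h4]; rfl
    · have h5 : ((χ τ : ℂ_[p]ˣ) : ℂ_[p]) ^ 3 = 1 := by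
        rw [← Units.val_pow_eq_pow_val, ← map_pow, h4, map_one, Units.val_one]
      have h6 : ((χ τ : ℂ_[p]ˣ) : ℂ_[p]) - 1 ≠ 0 := by
        rw [sub_ne_zero]
        intro h
        exact h2 (Units.ext h)
      apply mul_left_cancel₀ h6
      linear_combination h5
  rcases hcases with h | h
  · exact ⟨τ, key τ h hτ⟩
  · have h4 : (τ ^ 2) θ = W * θ := by
      have h2 : (τ ^ 2) θ = τ (τ θ) := by
        rw [pow_succ, pow_one]; rfl
      rw [h2, h, map_mul, map_pow, hτW, h]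
      linear_combination (W * θ) * hW3
    have h5 : χ (τ ^ 2) ≠ 1 := by
      intro h6
      have h7 : τ ^ 3 = 1 := by
        apply fix_root h3 hα hθ
        have h2 : (τ ^ 3) θ = τ (τ (τ θ)) := by
          rw [pow_succ, pow_succ, pow_one]; rfl
        rw [h2, h, map_mul, map_pow, hτW, h, map_mul, map_mul, map_pow, hτW, h]
        linear_combination (W ^ 3 + 1) * θ * hW3
      have h8 : χ τ ^ 3 = 1 := by rw [← map_pow, h7, map_one]
      rw [map_pow] at h6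
      apply hτ
      rw [pow_succ, h6, one_mul] at h8
      exact h8
    exact ⟨τ ^ 2, key _ h4 h5⟩

/-- the criterion in the form of `SigmaLeopoldt` -/
theorem sigmaLeopoldt_of {p : ℕ} [Fact p.Prime] {K H : Type} [Field K] [NumberField K] [Field H]
    [NumberField H] [Algebra K H] [IsTotallyComplex K] (h3 : Module.finrank K H = 3) (d : ℕ)
    (hd : Module.finrank ℚ K = 2 * d) {ω : K} (hω : ω ^ 2 + ω + 1 = 0)
    {α : K} (hα : ∀ x : K, x ^ 3 ≠ α) {θ : H} (hθ : θ ^ 3 = algebraMap K H α)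
    (S : Set (K →+* ℂ_[p])) (χ : (H ≃ₐ[K] H) →* ℂ_[p]ˣ) (hχ : χ ≠ 1)
    (hex : ∀ (L : ℂ_[p] → ℂ_[p]) (_ : IsIwasawaLog p L) (τ : H ≃ₐ[K] H) (r : ℂ_[p]),
      τ θ = algebraMap K H ω * θ → r ^ 2 + r + 1 = 0 →
      ∃ (y : Fin d → (𝓞 H)ˣ) (σ : Fin d → (H →+* ℂ_[p])),
        (∀ j, (σ j).comp (algebraMap K H) ∈ S) ∧
        (∀ c : Fin d → ℂ_[p], (∀ j, ∑ i, c i * (L (σ j (y i : 𝓞 H)) +
          r ^ 2 * L (σ j (τ (y i : 𝓞 H))) + r * L (σ j (τ (τ (y i : 𝓞 H))))) = 0) → c = 0)) :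
    SigmaLeopoldt p K H S χ := by
  intro L hL x hact hlog
  obtain ⟨τ, hτ1, hτ2, hr⟩ := exists_gen h3 hω hα hθ χ hχ
  obtain ⟨y, σ, hσ, hdet⟩ := hex L hL τ _ hτ1 hr
  exact criterion h3 d hd τ hτ2 hr y hL σ hdet x (hact τ) (fun j => hlog _ (hσ j))

end Pool.Agent.V7H76.CU
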