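import Mathlib
import Pool.Agent.Y789.SG.NonSq

set_option autoImplicit false

/-!
# The element `w - a t ^ 3` is not a cube
-/

namespace Pool.Agent.V7H76.CU

open NumberField Polynomial
open Pool.Agent.Y789.SG (units_eq)

theorem noncube {k : Type} [Field k] [NumberField k] (hk2 : Module.finrank ℚ k = 2)
    [IsTotallyComplex k] {K : Type} [Field K] [NumberField K] [Algebra k K] {d : ℕ} (hd : 0 < d)
    (hKk : Module.finrank k K = d) (ω : 𝓞 k) (hω : ω ^ 2 + ω + 1 = 0)
    (b : Fin d → ℤ) (hb : Function.Injective b) (a : 𝓞 k)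
    (β : Fin d → 𝓞 k) (hβ : ∀ i, (b i : 𝓞 k) - a = β i ^ 3) (hβ0 : ∀ i, β i ≠ 0)
    (t : ℤ) (ht : 3 ≤ |t|) (w : K) (hw : ∏ i, (w - (b i : K) * (t : K) ^ 3) = 1) :
    ∀ γ : K, γ ^ 3 ≠ w - algebraMap k K a * (t : K) ^ 3 := by
  intro γ hγ
  have ht0 : (t : 𝓞 k) ≠ 0 := by
    have : t ≠ 0 := by
      rintro rfl
      simp at ht
    exact_mod_cast this
  set g : (𝓞 k)[X] := ∏ i, (X ^ 3 - C (β i ^ 3 * (t : 𝓞 k) ^ 3)) - 1 with hg
  have hgγ : aeval γ g = 0 := by
    rw [hg, map_sub, map_one, map_prod, sub_eq_zero, ← hw]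
    refine Finset.prod_congr rfl fun i _ => ?_
    rw [map_sub, map_pow, aeval_X, aeval_C, ← hβ i, map_mul, map_sub, map_pow, map_intCast,
      map_intCast]
    have h1 : algebraMap (𝓞 k) K a = algebraMap k K a := rfl
    rw [h1]
    linear_combination hγ
  have hgm : g.Monic := by
    rw [hg]
    have h1 : (∏ i, (X ^ 3 - C (β i ^ 3 * (t : 𝓞 k) ^ 3))).Monic :=
      monic_prod_of_monic _ _ fun i _ => monic_X_pow_sub_C _ (by norm_num)
    apply h1.sub_of_left
    rw [degree_one, degree_eq_natDegree h1.ne_zero,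
      natDegree_prod_of_monic _ _ fun i _ => monic_X_pow_sub_C _ (by norm_num),
      Finset.sum_congr rfl fun i _ => natDegree_X_pow_sub_C]
    simp only [Finset.sum_const, Finset.card_univ, Fintype.card_fin, smul_eq_mul]
    exact_mod_cast (by omega : 0 < d * 3)
  have hint : IsIntegral (𝓞 k) γ := ⟨g, hgm, hgγ⟩
  set m : (𝓞 k)[X] := minpoly (𝓞 k) γ with hm
  have hmm : m.Monic := minpoly.monic hint
  have hmg : m ∣ g := minpoly.isIntegrallyClosed_dvd hint hgγ
  have hmd : m.natDegree ≤ d := by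
    have h1 : minpoly k γ = m.map (algebraMap (𝓞 k) k) :=
      minpoly.isIntegrallyClosed_eq_field_fractions' k hint
    have h2 : (minpoly k γ).natDegree ≤ Module.finrank k K := by
      have : FiniteDimensional k K := Module.finite_of_finrank_pos (by omega)
      exact minpoly.natDegree_le γ
    rw [h1, hmm.natDegree_map, hKk] at h2
    exact h2
  have hmpos : 0 < m.natDegree := minpoly.natDegree_pos hint
  have hunit : ∀ x : 𝓞 k, (∃ i, x ^ 3 = β i ^ 3 * (t : 𝓞 k) ^ 3) → IsUnit (m.eval x) := by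
    rintro x ⟨i, hi⟩
    obtain ⟨q, hq⟩ := hmg
    have h1 : g.eval x = -1 := by
      rw [hg, eval_sub, eval_one, eval_prod, Finset.prod_eq_zero (Finset.mem_univ i), zero_sub]
      simp [hi]
    rw [hq, eval_mul] at h1
    refine IsUnit.of_mul_eq_one (-q.eval x) ?_
    linear_combination -h1
  have hω3 : ω ^ 3 = 1 := by linear_combination (ω - 1) * hω
  set f : Fin d ⊕ Fin d → 𝓞 k := Sum.elim (fun i => β i * t) (fun i => ω * (β i * t)) with hf
  have hfsq : ∀ s, ∃ i, (f s) ^ 3 = β i ^ 3 * (t : 𝓞 k) ^ 3 := by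
    rintro (i | i)
    · exact ⟨i, by simp only [hf, Sum.elim_inl]; ring⟩
    · refine ⟨i, ?_⟩
      simp only [hf, Sum.elim_inr]
      linear_combination β i ^ 3 * (t : 𝓞 k) ^ 3 * hω3
  have hfdvd : ∀ s, (t : 𝓞 k) ∣ f s := by
    rintro (i | i)
    · exact ⟨β i, by simp only [hf, Sum.elim_inl]; ring⟩
    · exact ⟨ω * β i, by simp only [hf, Sum.elim_inr]; ring⟩
  have hβinj : ∀ i j, β i ^ 3 = β j ^ 3 → i = j := by
    intro i j hij
    apply hb
    rw [← hβ i, ← hβ j] at hij
    have h1 : (b i : 𝓞 k) = b j := by linear_combination hij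
    exact_mod_cast h1
  have hω0 : ω ≠ 0 := by
    rintro rfl
    simp at hω
  have hω1 : ω ≠ 1 := by
    rintro rfl
    norm_num at hω
  have hfinj : Function.Injective f := by
    have h2 : ∀ i j, β i * (t : 𝓞 k) ≠ ω * (β j * t) := by
      intro i j h
      have h3 : β i = ω * β j := by
        apply mul_right_cancel₀ ht0
        linear_combination h
      have h4 : i = j := hβinj i j (by rw [h3]; linear_combination β j ^ 3 * hω3)
      subst h4
      have h5 : (ω - 1) * β i = 0 := by linear_combination -h3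
      rcases mul_eq_zero.1 h5 with h6 | h6
      · exact hω1 (sub_eq_zero.1 h6)
      · exact hβ0 i h6
    rintro (i | i) (j | j) hij
    · simp only [hf, Sum.elim_inl] at hij
      have h3 : β i = β j := mul_right_cancel₀ ht0 hij
      rw [hβinj i j (by rw [h3])]
    · exact absurd hij (h2 i j)
    · exact absurd hij.symm (h2 j i)
    · simp only [hf, Sum.elim_inr] at hij
      have h3 : β i = β j := mul_right_cancel₀ ht0 (mul_left_cancel₀ hω0 hij)
      rw [hβinj i j (by rw [h3])]
  set s0 : Fin d ⊕ Fin d := Sum.inl ⟨0, hd⟩ with hs0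
  have hev : ∀ s, m.eval (f s) = (C (m.eval (f s0))).eval (f s) := by
    intro s
    rw [eval_C]
    apply units_eq hk2 t ht _ _ (hunit _ (hfsq s)) (hunit _ (hfsq s0))
    exact ((hfdvd s).sub (hfdvd s0)).trans (sub_dvd_eval_sub _ _ m)
  have hcard : max m.natDegree (C (m.eval (f s0))).natDegree < Fintype.card (Fin d ⊕ Fin d) := by
    rw [natDegree_C, Fintype.card_sum, Fintype.card_fin]
    omega
  have h1 := eq_of_natDegree_lt_card_of_eval_eq m _ hfinj hev hcard
  rw [h1, natDegree_C] at hmpos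
  exact lt_irrefl _ hmpos

end Pool.Agent.V7H76.CU
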