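import Mathlib
import Pool.Agent.V7H76.CU.Dk
import Pool.Agent.V7H76.CU.Gal
import Pool.Agent.V7H76.CU.NonCube
import Pool.Agent.Y789.SG.Main

set_option autoImplicit false

/-!
# The main theorem for cubic characters
-/

namespace Pool.Agent.V7H76.CU

open NumberField Pool.Agent.W289.SL
open Pool.Agent.Y789.SG (cadd csub cmul cpow cint cone czero log_unique totally_real)

/-- the units -/
lemma units_v {H : Type} [Field H] {d : ℕ} (Θ : 𝓞 H) (B : Fin d → 𝓞 H)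
    (h : ∏ i, (Θ ^ 3 - B i ^ 3) = 1) :
    ∃ v : Fin d → (𝓞 H)ˣ, ∀ i, ((v i : (𝓞 H)ˣ) : 𝓞 H) = Θ - B i := by
  have h1 : ∀ i, IsUnit (Θ - B i) := by
    intro i
    have h2 : (Θ - B i) * (Θ ^ 2 + Θ * B i + B i ^ 2) ∣ 1 := by
      rw [← h]
      have h3 : (Θ - B i) * (Θ ^ 2 + Θ * B i + B i ^ 2) = Θ ^ 3 - B i ^ 3 := by ring
      rw [h3]
      exact Finset.dvd_prod_of_mem _ (Finset.mem_univ i)
    exact isUnit_of_mul_isUnit_left (isUnit_of_dvd_one h2)
  exact ⟨fun i => (h1 i).unit, fun i => (h1 i).unit_spec⟩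

lemma log_root {p : ℕ} [Fact p.Prime] {L : ℂ_[p] → ℂ_[p]} (hL : IsIwasawaLog p L) {z : ℂ_[p]}
    (hz : z ^ 3 = 1) : L z = 0 := by
  have hz0 : z ≠ 0 := by
    rintro rfl
    norm_num at hz
  have h1 := hL.mul 1 1 one_ne_zero one_ne_zero
  rw [mul_one] at h1
  have h2 : L 1 = 0 := left_eq_add.1 h1
  have h3 : L (z ^ 3) = 3 * L z := by
    rw [pow_succ, pow_succ, pow_one, hL.mul _ _ (mul_ne_zero hz0 hz0) hz0, hL.mul _ _ hz0 hz0]
    ring
  rw [hz, h2] at h3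
  exact (mul_eq_zero.1 h3.symm).resolve_left three_ne_zero

/-- the logarithms of the conjugates -/
lemma log_terms {p : ℕ} [Fact p.Prime] {L : ℂ_[p] → ℂ_[p]} (hL : IsIwasawaLog p L)
    {z r T Y B : ℂ_[p]} (hz : z ^ 2 + z + 1 = 0) (hr : r ^ 2 + r + 1 = 0) (hT : T ≠ 0)
    (h0 : T * Y - B * T ≠ 0) (h1 : z * (T * Y) - B * T ≠ 0)
    (h2 : z * (z * (T * Y)) - B * T ≠ 0) :
    L (T * Y - B * T) + r ^ 2 * L (z * (T * Y) - B * T) + r * L (z * (z * (T * Y)) - B * T) =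
      ∑ l : Fin 3, (r ^ 2) ^ (l : ℕ) * L (Y - z ^ (2 * (l : ℕ)) * B) := by
  have hz3 : z ^ 3 = 1 := by linear_combination (z - 1) * hz
  have hr3 : r ^ 3 = 1 := by linear_combination (r - 1) * hr
  have hz0 : z ≠ 0 := by
    rintro rfl
    norm_num at hz3
  have e0 : T * Y - B * T = T * (Y - B) := by ring
  have e1 : z * (T * Y) - B * T = z * (T * (Y - z ^ 2 * B)) := by
    linear_combination (B * T) * hz3
  have e2 : z * (z * (T * Y)) - B * T = z * (z * (T * (Y - z ^ 4 * B))) := by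
    linear_combination (z ^ 3 + 1) * (B * T) * hz3
  rw [e0] at h0 ⊢
  rw [e1] at h1 ⊢
  rw [e2] at h2 ⊢
  have n0 := right_ne_zero_of_mul h0
  have n1 := right_ne_zero_of_mul (right_ne_zero_of_mul h1)
  have n2 := right_ne_zero_of_mul (right_ne_zero_of_mul (right_ne_zero_of_mul h2))
  rw [hL.mul _ _ hT n0, hL.mul _ _ hz0 (mul_ne_zero hT n1), hL.mul _ _ hT n1,
    hL.mul _ _ hz0 (mul_ne_zero hz0 (mul_ne_zero hT n2)), hL.mul _ _ hz0 (mul_ne_zero hT n2),
    hL.mul _ _ hT n2, log_root hL hz3, Fin.sum_univ_three]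
  simp only [Fin.val_zero, Fin.val_one, Fin.val_two, mul_zero, mul_one, pow_zero, pow_one, one_mul]
  norm_num
  linear_combination (L T) * hr - r * (L (Y - z ^ 4 * B)) * hr3

/-- the Sigma-Leopoldt statement for one field -/
theorem sl_one (p : ℕ) [Fact p.Prime] {k : Type} [Field k] [NumberField k] [IsTotallyComplex k]
    {d : ℕ} (ω : 𝓞 k) (hω : ω ^ 2 + ω + 1 = 0) (b : Fin d → ℤ) (a : 𝓞 k) (β : Fin d → 𝓞 k)
    (hβ : ∀ i, (b i : 𝓞 k) - a = β i ^ 3)
    {L₀ : ℂ_[p] → ℂ_[p]} (hL₀ : IsIwasawaLog p L₀) (t : ℤ) (ht0 : t ≠ 0)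
    (hexc : ∀ (ρ : ℂ_[p]), ρ ^ 2 + ρ + 1 = 0 →
      ∀ (ι : Fin d → (k →+* ℂ_[p])) (y : Fin d → ℂ_[p]),
      (∀ j, (∏ i, (y j ^ 3 + ι j a - b i)) * (t : ℂ_[p]) ^ (3 * d) = 1) →
      (Function.Injective fun j => y j ^ 3 + ι j a) →
      (Matrix.of fun i j => ∑ l : Fin 3, ρ ^ (l : ℕ) *
        L₀ (y j - ι j ω ^ (2 * (l : ℕ)) * ι j (β i))).det ≠ 0)
    {F K H : Type} [Field F] [NumberField F] [Field K] [NumberField K] [IsTotallyComplex K]
    [Field H] [NumberField H] [Algebra F K] [Algebra k K] [Algebra K H]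
    (hFK : Module.finrank F K = 2) (hFd : Module.finrank ℚ F = d) (w : F)
    (hw : ∏ i, (w - (b i : F) * (t : F) ^ 3) = 1) (hgen : IntermediateField.adjoin ℚ {w} = ⊤)
    (hcu : ∀ x : K, x ^ 3 ≠ algebraMap F K w - algebraMap k K a * (t : K) ^ 3)
    (hKH : Module.finrank K H = 3) (θ : H)
    (hθ : θ ^ 3 = algebraMap K H (algebraMap F K w - algebraMap k K a * (t : K) ^ 3))
    (S : Set (K →+* ℂ_[p])) (hS : IsCMType p F K S) (χ : (H ≃ₐ[K] H) →* ℂ_[p]ˣ) (hχ : χ ≠ 1) :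
    SigmaLeopoldt p K H S χ := by
  classical
  have hd2 : Module.finrank ℚ K = 2 * d := by
    rw [← Module.finrank_mul_finrank ℚ F K, hFd, hFK, mul_comm]
  have hd : 1 ≤ d := by
    have := Module.finrank_pos (R := ℚ) (M := K)
    omega
  have hquad : Algebra.IsQuadraticExtension F K := ⟨hFK⟩
  have hcard : Nat.card (K ≃ₐ[F] K) = 2 := by
    rw [IsGalois.card_aut_eq_finrank, hFK]
  obtain ⟨c, hc⟩ : ∃ c : K ≃ₐ[F] K, c ≠ 1 := by
    have : Nontrivial (K ≃ₐ[F] K) := by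
      rw [← Finite.one_lt_card_iff_nontrivial, hcard]; norm_num
    exact exists_ne 1
  have hωk : (ω : k) ^ 2 + (ω : k) + 1 = 0 := by
    have h1 := congrArg (algebraMap (𝓞 k) k) hω
    simpa using h1
  have hωK : (algebraMap k K ω) ^ 2 + algebraMap k K ω + 1 = 0 := by
    have h1 := congrArg (algebraMap k K) hωk
    simpa using h1
  apply sigmaLeopoldt_of hKH d hd2 hωK hcu hθ S χ hχ
  intro L hL τ r hτθ hr
  set Wω : H := algebraMap K H (algebraMap k K ω) with hWω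
  have hτW : τ Wω = Wω := τ.commutes _
  -- integrality
  have hwint : IsIntegral ℤ w :=
    Pool.Agent.H637R2.Leo.theta_integral hd (fun i => b i * t ^ 3) w (by
      rw [← hw]
      refine Finset.prod_congr rfl fun i _ => ?_
      push_cast
      ring)
  set ε : 𝓞 F := ⟨w, hwint⟩ with hε
  have hεw : (ε : F) = w := rfl
  set W : 𝓞 H := algebraMap (𝓞 K) (𝓞 H) (algebraMap (𝓞 F) (𝓞 K) ε) with hW
  have hWc : (W : H) = algebraMap K H (algebraMap F K w) := rfl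
  set A : 𝓞 H := algebraMap (𝓞 K) (𝓞 H) (algebraMap (𝓞 k) (𝓞 K) a) with hA
  have hAc : (A : H) = algebraMap K H (algebraMap k K a) := rfl
  set B : Fin d → 𝓞 H := fun i =>
    algebraMap (𝓞 K) (𝓞 H) (algebraMap (𝓞 k) (𝓞 K) (β i)) * (t : 𝓞 H) with hB
  have hBc : ∀ i, (B i : H) = algebraMap K H (algebraMap k K (β i)) * (t : H) := by
    intro i
    simp only [hB]
    rw [cmul, cint]
    rfl
  have hθ3 : θ ^ 3 = (W : H) - (A : H) * (t : H) ^ 3 := by
    rw [hθ, hWc, hAc, map_sub, map_mul, map_pow, map_intCast]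
  have hθint : IsIntegral ℤ θ := by
    have h1 : IsIntegral ℤ (θ ^ 3) := by
      have h2 : θ ^ 3 = ((W - A * (t : 𝓞 H) ^ 3 : 𝓞 H) : H) := by
        rw [hθ3, csub, cmul, cpow, cint]
      rw [h2]
      exact RingOfIntegers.isIntegral_coe _
    exact h1.of_pow (by norm_num)
  set Θ : 𝓞 H := ⟨θ, hθint⟩ with hΘ
  have hΘc : (Θ : H) = θ := rfl
  have hBA : ∀ i, B i ^ 3 = ((b i : 𝓞 H) - A) * (t : 𝓞 H) ^ 3 := by
    intro i
    have h1 := congrArg (fun x : 𝓞 k => algebraMap (𝓞 K) (𝓞 H) (algebraMap (𝓞 k) (𝓞 K) x)) (hβ i)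
    simp only [map_sub, map_intCast, map_pow] at h1
    simp only [hB]
    rw [mul_pow, ← h1]
  have hΘ3 : Θ ^ 3 = W - A * (t : 𝓞 H) ^ 3 := by
    apply RingOfIntegers.ext
    rw [cpow, csub, cmul, cpow, cint]
    exact hθ3
  have hprod : ∏ i, (Θ ^ 3 - B i ^ 3) = 1 := by
    have h1 : ∀ i, Θ ^ 3 - B i ^ 3 = W - (b i : 𝓞 H) * (t : 𝓞 H) ^ 3 := by
      intro i
      rw [hBA, hΘ3]
      ring
    rw [Finset.prod_congr rfl fun i _ => h1 i]
    have h2 : ∏ i, (ε - (b i : 𝓞 F) * (t : 𝓞 F) ^ 3) = 1 := by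
      apply RingOfIntegers.ext
      refine (map_prod (algebraMap (𝓞 F) F) _ Finset.univ).trans ?_
      rw [cone, ← hw]
      refine Finset.prod_congr rfl fun i _ => ?_
      rw [map_sub, map_mul, map_pow, map_intCast, map_intCast]
      rfl
    have h3 := congrArg (fun x : 𝓞 F => algebraMap (𝓞 K) (𝓞 H) (algebraMap (𝓞 F) (𝓞 K) x)) h2
    simp only [map_prod, map_sub, map_mul, map_pow, map_intCast, map_one] at h3
    exact h3
  obtain ⟨v, hv⟩ := units_v Θ B hprod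
  have hvc : ∀ i, (((v i : (𝓞 H)ˣ) : 𝓞 H) : H) = θ - (B i : H) := by
    intro i
    rw [hv, csub, hΘc]
  have hτB : ∀ i, τ (B i : H) = (B i : H) := by
    intro i
    rw [hBc, map_mul, AlgEquiv.commutes, map_intCast]
  have hv1 : ∀ i, τ (((v i : (𝓞 H)ˣ) : 𝓞 H) : H) = Wω * θ - (B i : H) := by
    intro i
    rw [hvc, map_sub, hτθ, hτB]
  have hv2 : ∀ i, τ (τ (((v i : (𝓞 H)ˣ) : 𝓞 H) : H)) = Wω * (Wω * θ) - (B i : H) := by
    intro i
    rw [hv1, map_sub, map_mul, hτW, hτθ, hτB]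
  have hvne : ∀ i, (((v i : (𝓞 H)ˣ) : 𝓞 H) : H) ≠ 0 := by
    intro i h
    have h1 : ((v i : (𝓞 H)ˣ) : 𝓞 H) = 0 := RingOfIntegers.ext (h.trans (map_zero _).symm)
    exact Units.ne_zero _ h1
  -- the embeddings
  have hcardF : Fintype.card (F →+* ℂ_[p]) = d := by rw [NumberField.Embeddings.card, hFd]
  set e : Fin d ≃ (F →+* ℂ_[p]) := (Fintype.equivFinOfCardEq hcardF).symm with he
  have hext : ∀ τ' : F →+* ℂ_[p], ∃ s : K →+* ℂ_[p], s.comp (algebraMap F K) = τ' ∧ s ∈ S := by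
    intro τ'
    obtain ⟨s, hs⟩ := exists_ext (K := K) τ'
    by_cases hsS : s ∈ S
    · exact ⟨s, hs, hsS⟩
    · refine ⟨s.comp (c : K →+* K), ?_, ?_⟩
      · rw [← hs]
        ext z
        simp
      · by_contra hcon
        exact hsS ((hS c hc s).2 hcon)
  choose s hs hsS using fun j => hext (e j)
  choose σ hσ using fun j => exists_ext (K := H) (s j)
  have ev : ∀ j (z : K), σ j (algebraMap K H z) = s j z := fun j z => by rw [← hσ j]; rfl
  have evF : ∀ j (z : F), s j (algebraMap F K z) = e j z := fun j z => by rw [← hs j]; rfl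
  refine ⟨v, σ, fun j => by rw [hσ j]; exact hsS j, ?_⟩
  have htp : (t : ℂ_[p]) ≠ 0 := by exact_mod_cast ht0
  set ι : Fin d → (k →+* ℂ_[p]) := fun j => (s j).comp (algebraMap k K) with hι
  have hιa : ∀ j (z : k), ι j z = s j (algebraMap k K z) := fun j z => rfl
  set y : Fin d → ℂ_[p] := fun j => σ j θ / (t : ℂ_[p]) with hy
  have hyc : ∀ j, y j ^ 3 + ι j a = e j w / (t : ℂ_[p]) ^ 3 := by
    intro j
    have h1 : (σ j θ) ^ 3 = e j w - ι j a * (t : ℂ_[p]) ^ 3 := by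
      rw [← map_pow, hθ, ev, map_sub, map_mul, map_pow, map_intCast, evF, hιa]
    simp only [hy]
    rw [div_pow, h1]
    field_simp
    ring
  have hr3 : r ^ 3 = 1 := by linear_combination (r - 1) * hr
  have h1 := hexc (r ^ 2) (by linear_combination hr + r * hr3) ι y ?_ ?_
  · intro c' hc'
    have h2 : Matrix.vecMul c' (Matrix.of fun i j => ∑ l : Fin 3, (r ^ 2) ^ (l : ℕ) *
        L₀ (y j - ι j ω ^ (2 * (l : ℕ)) * ι j (β i))) = 0 := by
      ext j
      rw [Pi.zero_apply, ← hc' j]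
      unfold Matrix.vecMul dotProduct
      refine Finset.sum_congr rfl fun i _ => ?_
      change c' i * (∑ l : Fin 3, (r ^ 2) ^ (l : ℕ) *
        L₀ (y j - ι j ω ^ (2 * (l : ℕ)) * ι j (β i))) = _
      congr 1
      have hz : (ι j ω) ^ 2 + ι j ω + 1 = 0 := by
        have h3 := congrArg (ι j) hωk
        simpa using h3
      have hσθ : σ j θ = (t : ℂ_[p]) * y j := by
        simp only [hy]
        field_simp
      have hσB : σ j (B i : H) = ι j (β i) * (t : ℂ_[p]) := by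
        rw [hBc, map_mul, map_intCast, ev, ← hιa]
      have hσW : σ j Wω = ι j ω := by rw [hWω, ev, ← hιa]
      have e0 : σ j (((v i : (𝓞 H)ˣ) : 𝓞 H) : H) =
          (t : ℂ_[p]) * y j - ι j (β i) * (t : ℂ_[p]) := by
        rw [hvc, map_sub, hσθ, hσB]
      have e1 : σ j (τ (((v i : (𝓞 H)ˣ) : 𝓞 H) : H)) =
          ι j ω * ((t : ℂ_[p]) * y j) - ι j (β i) * (t : ℂ_[p]) := by
        rw [hv1, map_sub, map_mul, hσθ, hσB, hσW]
      have e2 : σ j (τ (τ (((v i : (𝓞 H)ˣ) : 𝓞 H) : H))) =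
          ι j ω * (ι j ω * ((t : ℂ_[p]) * y j)) - ι j (β i) * (t : ℂ_[p]) := by
        rw [hv2, map_sub, map_mul, map_mul, hσθ, hσB, hσW]
      have n0 : σ j (((v i : (𝓞 H)ˣ) : 𝓞 H) : H) ≠ 0 := by
        rw [Ne, map_eq_zero]; exact hvne i
      have n1 : σ j (τ (((v i : (𝓞 H)ˣ) : 𝓞 H) : H)) ≠ 0 := by
        rw [Ne, map_eq_zero, map_eq_zero_iff _ τ.injective]; exact hvne i
      have n2 : σ j (τ (τ (((v i : (𝓞 H)ˣ) : 𝓞 H) : H))) ≠ 0 := by
        rw [Ne, map_eq_zero, map_eq_zero_iff _ τ.injective, map_eq_zero_iff _ τ.injective]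
        exact hvne i
      have l0 : L (σ j (((v i : (𝓞 H)ˣ) : 𝓞 H) : H)) = L₀ (σ j (((v i : (𝓞 H)ˣ) : 𝓞 H) : H)) :=
        log_unique hL hL₀ (σ j) (v i)
      have l1 : L (σ j (τ (((v i : (𝓞 H)ˣ) : 𝓞 H) : H))) =
          L₀ (σ j (τ (((v i : (𝓞 H)ˣ) : 𝓞 H) : H))) :=
        log_unique hL hL₀ ((σ j).comp (τ : H →+* H)) (v i)
      have l2 : L (σ j (τ (τ (((v i : (𝓞 H)ˣ) : 𝓞 H) : H)))) =
          L₀ (σ j (τ (τ (((v i : (𝓞 H)ˣ) : 𝓞 H) : H)))) :=
        log_unique hL hL₀ (((σ j).comp (τ : H →+* H)).comp (τ : H →+* H)) (v i)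
      rw [l0, l1, l2]
      rw [e0] at n0 ⊢
      rw [e1] at n1 ⊢
      rw [e2] at n2 ⊢
      exact (log_terms hL₀ hz hr htp n0 n1 n2).symm
    exact Matrix.eq_zero_of_vecMul_eq_zero h1 h2
  · intro j
    rw [Finset.prod_congr rfl fun i _ => by rw [hyc j]]
    have h2 : (t : ℂ_[p]) ^ (3 * d) = ∏ _i : Fin d, (t : ℂ_[p]) ^ 3 := by
      rw [pow_mul]
      simp
    rw [h2, ← Finset.prod_mul_distrib]
    have h3 := congrArg (e j) hw
    simp only [map_prod, map_sub, map_mul, map_pow, map_intCast, map_one] at h3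
    rw [← h3]
    refine Finset.prod_congr rfl fun i _ => ?_
    field_simp
  · intro j j' hjj
    simp only [hyc] at hjj
    have h2 : e j w = e j' w := by
      have h3 : (t : ℂ_[p]) ^ 3 ≠ 0 := pow_ne_zero _ htp
      field_simp at hjj
      exact hjj
    apply e.injective
    have hint : Algebra.IsAlgebraic ℚ F := inferInstance
    have htop : Algebra.adjoin ℚ {w} = ⊤ := by
      rw [← IntermediateField.adjoin_simple_toSubalgebra_of_isAlgebraic
        (Algebra.IsAlgebraic.isAlgebraic _), hgen]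
      rfl
    apply (RingHom.equivRatAlgHom F ℂ_[p]).injective
    apply AlgHom.ext_of_adjoin_eq_top htop
    intro x hx
    rw [Set.mem_singleton_iff] at hx
    subst hx
    exact h2

end Pool.Agent.V7H76.CU
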