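import Mathlib

set_option autoImplicit false

/-!
# Gaps between cubes
-/

namespace Pool.Agent.V7H76.CU

lemma norm_root {z : ℂ} (hz : z ^ 2 + z + 1 = 0) : ‖z‖ = 1 := by
  have h1 : z ^ 3 = 1 := by linear_combination (z - 1) * hz
  have h2 : ‖z‖ ^ 3 = 1 := by rw [← norm_pow, h1, norm_one]
  exact (pow_eq_one_iff_of_nonneg (norm_nonneg _) (by norm_num)).1 h2

lemma norm_root_sub {z : ℂ} (hz : z ^ 2 + z + 1 = 0) : 3 / 2 ≤ ‖z - 1‖ := by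
  have h1 : (z - 1) ^ 2 = -3 * z := by linear_combination hz
  have h2 : ‖z - 1‖ ^ 2 = 3 := by
    rw [← norm_pow, h1, norm_mul, norm_root hz]
    norm_num
  have h3 := norm_nonneg (z - 1)
  nlinarith

/-- two of three points cannot both be near -/
lemma dist_ge {s u v : ℂ} {r : ℝ} (h : 3 / 2 * r ≤ ‖u - v‖) (hs : ‖s - u‖ < 3 / 4 * r) :
    3 / 4 * r ≤ ‖s - v‖ := by
  have h1 : ‖u - v‖ ≤ ‖s - u‖ + ‖s - v‖ := by
    have h2 : u - v = -(s - u) + (s - v) := by ring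
    rw [h2]
    refine (norm_add_le _ _).trans ?_
    rw [norm_neg]
  linarith

/-- the nearest of the three points -/
lemma near {z s Y : ℂ} (hz : z ^ 2 + z + 1 = 0) :
    ∃ l : ℂ, (l = 1 ∨ l = z ∨ l = z ^ 2) ∧
      ‖s - l * Y‖ * (9 / 16 * ‖Y‖ ^ 2) ≤ ‖s ^ 3 - Y ^ 3‖ := by
  have hz3 : z ^ 3 = 1 := by linear_combination (z - 1) * hz
  have hz1 := norm_root hz
  have hz2 := norm_root_sub hz
  have hr := norm_nonneg Y
  set r := ‖Y‖ with hrdef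
  have e01 : 3 / 2 * r ≤ ‖z * Y - Y‖ := by
    have : z * Y - Y = (z - 1) * Y := by ring
    rw [this, norm_mul]
    exact mul_le_mul_of_nonneg_right hz2 hr
  have e12 : 3 / 2 * r ≤ ‖z ^ 2 * Y - z * Y‖ := by
    have : z ^ 2 * Y - z * Y = z * ((z - 1) * Y) := by ring
    rw [this, norm_mul, norm_mul, hz1, one_mul]
    exact mul_le_mul_of_nonneg_right hz2 hr
  have e02 : 3 / 2 * r ≤ ‖z ^ 2 * Y - Y‖ := by
    have : z ^ 2 * Y - Y = -(z ^ 2 * ((z - 1) * Y)) := by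
      linear_combination Y * hz3
    rw [this, norm_neg, norm_mul, norm_pow, norm_mul, hz1, one_pow, one_mul]
    exact mul_le_mul_of_nonneg_right hz2 hr
  have hfac : s ^ 3 - Y ^ 3 = (s - Y) * ((s - z * Y) * (s - z ^ 2 * Y)) := by
    linear_combination -(-s ^ 2 * Y + s * Y ^ 2) * hz - (s * Y ^ 2 - Y ^ 3) * hz3
  have hn : ‖s ^ 3 - Y ^ 3‖ = ‖s - Y‖ * (‖s - z * Y‖ * ‖s - z ^ 2 * Y‖) := by
    rw [hfac, norm_mul, norm_mul]
  rw [hn]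
  have n0 := norm_nonneg (s - Y)
  have n1 := norm_nonneg (s - z * Y)
  have n2 := norm_nonneg (s - z ^ 2 * Y)
  by_cases h0 : ‖s - Y‖ < 3 / 4 * r
  · have h1 : 3 / 4 * r ≤ ‖s - z * Y‖ := dist_ge (by rw [norm_sub_rev]; exact e01) h0
    have h2 : 3 / 4 * r ≤ ‖s - z ^ 2 * Y‖ := dist_ge (by rw [norm_sub_rev]; exact e02) h0
    refine ⟨1, Or.inl rfl, ?_⟩
    rw [one_mul]
    apply mul_le_mul_of_nonneg_left _ n0
    nlinarith
  · push Not at h0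
    by_cases h1 : ‖s - z * Y‖ < 3 / 4 * r
    · have h2 : 3 / 4 * r ≤ ‖s - z ^ 2 * Y‖ := dist_ge (by rw [norm_sub_rev]; exact e12) h1
      refine ⟨z, Or.inr (Or.inl rfl), ?_⟩
      have h3 : 9 / 16 * r ^ 2 ≤ ‖s - Y‖ * ‖s - z ^ 2 * Y‖ := by nlinarith
      calc ‖s - z * Y‖ * (9 / 16 * r ^ 2) ≤ ‖s - z * Y‖ * (‖s - Y‖ * ‖s - z ^ 2 * Y‖) :=
            mul_le_mul_of_nonneg_left h3 n1
        _ = _ := by ring
    · push Not at h1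
      refine ⟨z ^ 2, Or.inr (Or.inr rfl), ?_⟩
      have h3 : 9 / 16 * r ^ 2 ≤ ‖s - Y‖ * ‖s - z * Y‖ := by nlinarith
      calc ‖s - z ^ 2 * Y‖ * (9 / 16 * r ^ 2) ≤ ‖s - z ^ 2 * Y‖ * (‖s - Y‖ * ‖s - z * Y‖) :=
            mul_le_mul_of_nonneg_left h3 n2
        _ = _ := by ring

/-- **Gaps between cubes.** -/
lemma cube_gap {z s Y : ℂ} (hz : z ^ 2 + z + 1 = 0) {κ : ℝ} (hκ0 : 0 ≤ κ) (hκ : κ < 3)
    (hY : 20 ≤ ‖Y‖) (hY2 : 212 / (3 - κ) < ‖Y‖)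
    (hgap : ∀ l : ℂ, (l = 1 ∨ l = z ∨ l = z ^ 2) → s ≠ l * Y → 1 ≤ ‖s - l * Y‖)
    (h : ‖s ^ 3 - Y ^ 3‖ ≤ κ * ‖Y‖ ^ 2 + 3 * ‖Y‖ + 1) : s ^ 3 = Y ^ 3 := by
  by_contra hne
  have hz3 : z ^ 3 = 1 := by linear_combination (z - 1) * hz
  obtain ⟨l, hl, h1⟩ := near (s := s) (Y := Y) hz
  have hl3 : l ^ 3 = 1 := by
    rcases hl with rfl | rfl | rfl
    · ring
    · exact hz3
    · linear_combination (z ^ 3 + 1) * hz3
  have hl1 : ‖l‖ = 1 := by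
    have h2 : ‖l‖ ^ 3 = 1 := by rw [← norm_pow, hl3, norm_one]
    exact (pow_eq_one_iff_of_nonneg (norm_nonneg _) (by norm_num)).1 h2
  have hsl : s ≠ l * Y := by
    intro h2
    apply hne
    rw [h2, mul_pow, hl3, one_mul]
  have hδ := hgap l hl hsl
  set δ := s - l * Y with hδdef
  set r := ‖Y‖ with hr
  have hδ2 : ‖δ‖ < 13 := by
    by_contra hcon
    push Not at hcon
    have h2 : 13 * (9 / 16 * r ^ 2) ≤ κ * r ^ 2 + 3 * r + 1 :=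
      (mul_le_mul_of_nonneg_right hcon (by positivity)).trans (h1.trans h)
    nlinarith
  have hs : s = l * Y + δ := by rw [hδdef]; ring
  have hfac : s ^ 3 - Y ^ 3 = δ * (3 * l ^ 2 * Y ^ 2 + (3 * l * Y * δ + δ ^ 2)) := by
    rw [hs]
    linear_combination Y ^ 3 * hl3
  have h3 : 3 * r ^ 2 - 39 * r - 169 ≤ ‖3 * l ^ 2 * Y ^ 2 + (3 * l * Y * δ + δ ^ 2)‖ := by
    have h4 : ‖3 * l ^ 2 * Y ^ 2‖ - ‖3 * l * Y * δ + δ ^ 2‖ ≤
        ‖3 * l ^ 2 * Y ^ 2 + (3 * l * Y * δ + δ ^ 2)‖ := by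
      have := norm_sub_norm_le (3 * l ^ 2 * Y ^ 2) (-(3 * l * Y * δ + δ ^ 2))
      rwa [norm_neg, sub_neg_eq_add] at this
    have h5 : ‖3 * l ^ 2 * Y ^ 2‖ = 3 * r ^ 2 := by
      rw [norm_mul, norm_mul, norm_pow, norm_pow, hl1, one_pow, mul_one]
      norm_num
      rfl
    have h6 : ‖3 * l * Y * δ + δ ^ 2‖ ≤ 39 * r + 169 := by
      refine (norm_add_le _ _).trans ?_
      have h7 : ‖3 * l * Y * δ‖ = 3 * r * ‖δ‖ := by
        rw [norm_mul, norm_mul, norm_mul, hl1, mul_one, hr]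
        norm_num
      rw [h7, norm_pow]
      have h8 := norm_nonneg δ
      nlinarith
    rw [h5] at h4
    linarith
  have h4 : 0 ≤ 3 * r ^ 2 - 39 * r - 169 := by nlinarith
  have h5 : 3 * r ^ 2 - 39 * r - 169 ≤ ‖s ^ 3 - Y ^ 3‖ := by
    rw [hfac, norm_mul]
    calc 3 * r ^ 2 - 39 * r - 169 ≤ ‖3 * l ^ 2 * Y ^ 2 + (3 * l * Y * δ + δ ^ 2)‖ := h3
      _ = 1 * ‖3 * l ^ 2 * Y ^ 2 + (3 * l * Y * δ + δ ^ 2)‖ := by rw [one_mul]
      _ ≤ _ := mul_le_mul_of_nonneg_right hδ (norm_nonneg _)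
  have h6 : 3 * r ^ 2 - 39 * r - 169 ≤ κ * r ^ 2 + 3 * r + 1 := h5.trans h
  have h7 : 212 < r * (3 - κ) := by
    rw [div_lt_iff₀ (by linarith)] at hY2
    exact hY2
  nlinarith

end Pool.Agent.V7H76.CU
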