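import Mathlib
import Pool.Agent.Y789.SG.NonSq
import Pool.Agent.Y789.SG.NonSqC

set_option autoImplicit false

/-!
# Relative norms to an imaginary quadratic field
-/

namespace Pool.Agent.V7H76.CU

open NumberField Polynomial
open Pool.Agent.Y789.SG

/-- the embeddings of `K` extending a given embedding of `k` -/
noncomputable def embs {k K : Type} [Field k] [Field K] [NumberField K] [Algebra k K]
    (φ₀ : k →+* ℂ) : Finset (K →+* ℂ) := by
  classical
  exact Finset.univ.filter fun σ => σ.comp (algebraMap k K) = φ₀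

lemma mem_embs {k K : Type} [Field k] [Field K] [NumberField K] [Algebra k K]
    {φ₀ : k →+* ℂ} {σ : K →+* ℂ} : σ ∈ embs (K := K) φ₀ ↔ σ.comp (algebraMap k K) = φ₀ := by
  classical
  simp [embs]

/-- the relative norm of an integer -/
lemma rel_norm {k K : Type} [Field k] [NumberField k] [Field K] [NumberField K] [Algebra k K]
    (φ₀ : k →+* ℂ) (γ : K) (hγ : IsIntegral ℤ γ) :
    ∃ s : 𝓞 k, φ₀ s = ∏ σ ∈ embs (K := K) φ₀, σ γ := by
  classical
  have hfd : FiniteDimensional k K := Module.Finite.of_restrictScalars_finite ℚ k K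
  have hint : IsIntegral ℤ (Algebra.norm k γ) := Algebra.isIntegral_norm k hγ
  refine ⟨⟨Algebra.norm k γ, hint⟩, ?_⟩
  change φ₀ (Algebra.norm k γ) = _
  let := φ₀.toAlgebra
  have h1 := Algebra.norm_eq_prod_embeddings k ℂ γ
  have h2 : algebraMap k ℂ (Algebra.norm k γ) = φ₀ (Algebra.norm k γ) := rfl
  rw [← h2, h1]
  apply Finset.prod_nbij (fun σ : K →ₐ[k] ℂ => (σ : K →+* ℂ))
  · intro σ _
    rw [mem_embs]
    ext z
    exact σ.commutes z
  · intro σ _ σ' _ h
    ext z
    exact congrArg (fun f : K →+* ℂ => f z) h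
  · intro σ hσ
    have hσ' := mem_embs.1 (Finset.mem_coe.1 hσ)
    refine ⟨{ toRingHom := σ, commutes' := fun z => ?_ }, Finset.mem_coe.2 (Finset.mem_univ _), ?_⟩
    · exact congrArg (fun f : k →+* ℂ => f z) hσ'
    · ext z; rfl
  · intro σ _
    rfl

/-- the restriction of an embedding to the quadratic field -/
lemma res_cases {k K : Type} [Field k] [NumberField k] [IsTotallyComplex k] [Field K]
    [Algebra k K] (hk2 : Module.finrank ℚ k = 2)
    (φ₀ : k →+* ℂ) (φ : K →+* ℂ) : φ.comp (algebraMap k K) = φ₀ ∨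
      φ.comp (algebraMap k K) = ComplexEmbedding.conjugate φ₀ := by
  classical
  set φ1 : k →ₐ[ℚ] ℂ := RingHom.equivRatAlgHom k ℂ φ₀ with h1
  set φ2 : k →ₐ[ℚ] ℂ := RingHom.equivRatAlgHom k ℂ (ComplexEmbedding.conjugate φ₀) with h2
  have hne : φ1 ≠ φ2 := fun h => conj_ne φ₀ ((RingHom.equivRatAlgHom k ℂ).injective h).symm
  have hcard : Fintype.card (k →ₐ[ℚ] ℂ) = 2 := by
    rw [← Fintype.card_congr (RingHom.equivRatAlgHom k ℂ), NumberField.Embeddings.card, hk2]
  have huniv : (Finset.univ : Finset (k →ₐ[ℚ] ℂ)) = {φ1, φ2} := by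
    symm
    apply Finset.eq_univ_of_card
    rw [Finset.card_pair hne, hcard]
  have h3 : RingHom.equivRatAlgHom k ℂ (φ.comp (algebraMap k K)) ∈
      (Finset.univ : Finset (k →ₐ[ℚ] ℂ)) := Finset.mem_univ _
  rw [huniv, Finset.mem_insert, Finset.mem_singleton] at h3
  rcases h3 with h3 | h3
  · exact Or.inl ((RingHom.equivRatAlgHom k ℂ).injective h3)
  · exact Or.inr ((RingHom.equivRatAlgHom k ℂ).injective h3)

/-- products over the extensions of `φ₀` are products over the embeddings of `F` -/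
lemma prod_embs {k F K : Type} [Field k] [NumberField k] [IsTotallyComplex k] [Field F]
    [NumberField F] [IsTotallyReal F] [Field K] [NumberField K] [IsTotallyComplex K]
    [Algebra F K] [Algebra k K] (hk2 : Module.finrank ℚ k = 2) (hFK : Module.finrank F K = 2)
    (φ₀ : k →+* ℂ) (f : (F →+* ℂ) → ℂ) :
    ∏ σ ∈ embs (K := K) φ₀, f (σ.comp (algebraMap F K)) = ∏ τ : F →+* ℂ, f τ := by
  classical
  have hquad : Algebra.IsQuadraticExtension F K := ⟨hFK⟩
  have hcard : Nat.card (K ≃ₐ[F] K) = 2 := by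
    rw [IsGalois.card_aut_eq_finrank, hFK]
  obtain ⟨c, hc⟩ : ∃ c : K ≃ₐ[F] K, c ≠ 1 := by
    have : Nontrivial (K ≃ₐ[F] K) := by
      rw [← Finite.one_lt_card_iff_nontrivial, hcard]; norm_num
    exact exists_ne 1
  apply Finset.prod_nbij (fun σ : K →+* ℂ => σ.comp (algebraMap F K))
  · intro σ _
    exact Finset.mem_univ _
  · intro σ hσ σ' hσ' h
    have h1 := mem_embs.1 (Finset.mem_coe.1 hσ)
    have h2 := mem_embs.1 (Finset.mem_coe.1 hσ')
    obtain ⟨g, hg⟩ := ComplexEmbedding.exists_comp_symm_eq_of_comp_eq σ σ' h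
    by_cases hg1 : g.symm = 1
    · rw [hg1] at hg
      rw [← hg]
      ext z; rfl
    · exfalso
      apply conj_ne φ₀
      ext z
      have h3 : σ' (algebraMap k K z) = (starRingEnd ℂ) (σ (algebraMap k K z)) := by
        rw [← hg]
        exact conj_comp hFK g.symm hg1 σ _
      have h4 : σ (algebraMap k K z) = φ₀ z := congrArg (fun f : k →+* ℂ => f z) h1
      have h5 : σ' (algebraMap k K z) = φ₀ z := congrArg (fun f : k →+* ℂ => f z) h2
      rw [h4, h5] at h3
      exact h3.symm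
  · intro τ _
    obtain ⟨φ, hφ⟩ : ∃ φ : K →+* ℂ, φ.comp (algebraMap F K) = τ := by
      let := τ.toAlgebra
      let f : K →ₐ[F] ℂ := IsAlgClosed.lift
      exact ⟨f, f.comp_algebraMap⟩
    rcases res_cases hk2 φ₀ φ with h | h
    · exact ⟨φ, Finset.mem_coe.2 (mem_embs.2 h), hφ⟩
    · refine ⟨φ.comp (c : K →+* K), Finset.mem_coe.2 (mem_embs.2 ?_), ?_⟩
      · ext z
        change φ (c (algebraMap k K z)) = φ₀ z
        rw [conj_comp hFK c hc]
        have h4 : φ (algebraMap k K z) = (starRingEnd ℂ) (φ₀ z) :=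
          congrArg (fun f : k →+* ℂ => f z) h
        rw [h4, Complex.conj_conj]
      · rw [← hφ]
        ext z
        change φ (c (algebraMap F K z)) = φ (algebraMap F K z)
        rw [c.commutes]
  · intro σ _
    rfl

lemma emb_ge {k : Type} [Field k] [NumberField k] (hk2 : Module.finrank ℚ k = 2)
    [IsTotallyComplex k] (φ₀ : k →+* ℂ) (z : 𝓞 k) (hz : φ₀ z ≠ 0) : 1 ≤ ‖φ₀ z‖ := by
  have h1 : z ≠ 0 := by
    rintro rfl
    exact hz (map_zero _)
  have h2 := place_ge hk2 (InfinitePlace.mk φ₀) z h1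
  rwa [InfinitePlace.apply] at h2

end Pool.Agent.V7H76.CU
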