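import Mathlib
import Pool.Agent.V7H76.CU.Gap
import Pool.Agent.V7H76.CU.Norm
import Pool.Agent.H637R2.Leo.Poly

set_option autoImplicit false

/-!
# The elements `α c(α)` and `α² c(α)` are not cubes
-/

namespace Pool.Agent.V7H76.CU

open NumberField
open Pool.Agent.Y789.SG (conj_ne quadC conj_comp prod_emb)

lemma kmul {k : Type} [Field k] (x y : 𝓞 k) : ((x * y : 𝓞 k) : k) = (x : k) * y :=
  map_mul (algebraMap (𝓞 k) k) x y

lemma ksub {k : Type} [Field k] (x y : 𝓞 k) : ((x - y : 𝓞 k) : k) = (x : k) - y :=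
  map_sub (algebraMap (𝓞 k) k) x y

/-- the final contradiction -/
lemma no_small (T s e : ℤ) (hs : 2 ≤ |s|) (he : e * e = 1) (h : s * T = e) : False := by
  have h1 : |s| * |T| = 1 := by
    rw [← abs_mul, h]
    have h2 : |e| * |e| = 1 := by rw [← abs_mul, he, abs_one]
    have h3 := abs_nonneg e
    nlinarith
  have h2 := abs_nonneg T
  have h3 : |T| ≠ 0 := by
    intro h4
    rw [h4] at h1
    norm_num at h1
  have h4 : 1 ≤ |T| := by omega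
  nlinarith

/-- the two equations -/
lemma two_cases {z s X A : ℂ} {ε τ : ℝ} (hz : z ^ 2 + z + 1 = 0) (hε : ε * ε = 1)
    (hX : X ^ 3 = (τ : ℂ) * A) (hA : A.im ≠ 0)
    (hX1 : 1 ≤ ‖X‖) (hX2 : 212 < ‖X‖ ^ 2)
    (hX3 : 212 / (3 - ‖A + 2 * (starRingEnd ℂ) A‖ / ‖A‖) < ‖X‖ ^ 3)
    (hX4 : 20 ≤ ‖X‖ ^ 3)
    (hg1 : ∀ l : ℂ, (l = 1 ∨ l = z ∨ l = z ^ 2) → s ≠ l * (X * (starRingEnd ℂ) X) →
      1 ≤ ‖s - l * (X * (starRingEnd ℂ) X)‖)
    (hg2 : ∀ l : ℂ, (l = 1 ∨ l = z ∨ l = z ^ 2) → s ≠ l * (X ^ 2 * (starRingEnd ℂ) X) →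
      1 ≤ ‖s - l * (X ^ 2 * (starRingEnd ℂ) X)‖)
    (h : s ^ 3 = (X ^ 3 - ε) * (starRingEnd ℂ) (X ^ 3 - ε) ∨
      s ^ 3 = (X ^ 3 - ε) ^ 2 * (starRingEnd ℂ) (X ^ 3 - ε)) :
    (τ : ℂ) * (A + (starRingEnd ℂ) A) = ε := by
  set X' := (starRingEnd ℂ) X with hX'
  set A' := (starRingEnd ℂ) A with hA'
  have hXX : X' ^ 3 = (τ : ℂ) * A' := by
    rw [hX', ← map_pow, hX, map_mul, Complex.conj_ofReal]
  have hc : (starRingEnd ℂ) (X ^ 3 - ε) = X' ^ 3 - ε := by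
    rw [map_sub, map_pow, Complex.conj_ofReal]
  have hε2 : (ε : ℂ) * ε = 1 := by exact_mod_cast hε
  have hε1 : ‖(ε : ℂ)‖ = 1 := by
    have h1 : ‖(ε : ℂ)‖ * ‖(ε : ℂ)‖ = 1 := by rw [← norm_mul, hε2, norm_one]
    have h2 := norm_nonneg (ε : ℂ)
    nlinarith
  have hnX : ‖X'‖ = ‖X‖ := by rw [hX', RCLike.norm_conj]
  have hA0 : A ≠ 0 := by
    rintro rfl
    exact hA rfl
  have hAn : 0 < ‖A‖ := norm_pos_iff.2 hA0
  rw [hc] at h
  -- it suffices to have equality of cubes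
  have key : (X ^ 3 - ε) * (X' ^ 3 - ε) = X ^ 3 * X' ^ 3 → (τ : ℂ) * (A + A') = ε := by
    intro h1
    rw [mul_add, ← hX, ← hXX]
    have h2 : (ε : ℂ) * (X ^ 3 + X' ^ 3) = ε * ε := by linear_combination -h1
    have hε0 : (ε : ℂ) ≠ 0 := by
      intro h3
      rw [h3] at hε2
      norm_num at hε2
    exact mul_left_cancel₀ hε0 h2
  have hX3le : ‖X‖ ^ 3 ≤ (‖X‖ ^ 2) ^ 2 := by nlinarith [pow_nonneg (norm_nonneg X) 3]
  rcases h with h | h
  · apply key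
    have hY : ‖X * X'‖ = ‖X‖ ^ 2 := by rw [norm_mul, hnX]; ring
    have h1 : s ^ 3 - (X * X') ^ 3 = -(ε * (X ^ 3 + X' ^ 3)) + 1 := by
      rw [h]
      linear_combination hε2
    have h2 : ‖s ^ 3 - (X * X') ^ 3‖ ≤ 2 * ‖X * X'‖ ^ 2 + 3 * ‖X * X'‖ + 1 := by
      rw [h1, hY]
      refine (norm_add_le _ _).trans ?_
      rw [norm_neg, norm_mul, hε1, one_mul, norm_one]
      have h3 : ‖X ^ 3 + X' ^ 3‖ ≤ 2 * ‖X‖ ^ 3 := by
        refine (norm_add_le _ _).trans ?_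
        rw [norm_pow, norm_pow, hnX]
        linarith
      nlinarith [sq_nonneg ‖X‖]
    have h3 := cube_gap hz (by norm_num : (0 : ℝ) ≤ 2) (by norm_num) (by rw [hY]; linarith)
      (by rw [hY]; norm_num; linarith) hg1 h2
    rw [← h, h3]
    ring
  · set κ : ℝ := ‖A + 2 * A'‖ / ‖A‖ with hκ
    have hκ0 : 0 ≤ κ := by positivity
    have hκ3 : κ < 3 := by
      rw [hκ, div_lt_iff₀ hAn]
      have h1 : ‖A + 2 * A'‖ ^ 2 < (3 * ‖A‖) ^ 2 := by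
        rw [mul_pow, ← Complex.normSq_eq_norm_sq, ← Complex.normSq_eq_norm_sq,
          Complex.normSq_apply, Complex.normSq_apply]
        have e1 : (A + 2 * A').re = 3 * A.re := by
          rw [hA']
          simp
          ring
        have e2 : (A + 2 * A').im = -A.im := by
          rw [hA']
          simp
          ring
        rw [e1, e2]
        have : 0 < A.im * A.im := mul_self_pos.2 hA
        nlinarith
      exact lt_of_pow_lt_pow_left₀ 2 (by positivity) h1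
    have hY : ‖X ^ 2 * X'‖ = ‖X‖ ^ 3 := by rw [norm_mul, norm_pow, hnX]; ring
    have h1 : s ^ 3 - (X ^ 2 * X') ^ 3 =
        -(ε * (X ^ 3 * (X ^ 3 + 2 * X' ^ 3))) + (2 * X ^ 3 + X' ^ 3) - ε := by
      rw [h]
      linear_combination (2 * X ^ 3 + X' ^ 3 - (ε : ℂ)) * hε2
    have h2 : ‖s ^ 3 - (X ^ 2 * X') ^ 3‖ ≤ κ * ‖X ^ 2 * X'‖ ^ 2 + 3 * ‖X ^ 2 * X'‖ + 1 := by
      rw [h1, hY]
      refine (norm_sub_le _ _).trans ?_
      rw [hε1]
      have h3 : ‖-(ε * (X ^ 3 * (X ^ 3 + 2 * X' ^ 3))) + (2 * X ^ 3 + X' ^ 3)‖ ≤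
          κ * (‖X‖ ^ 3) ^ 2 + 3 * ‖X‖ ^ 3 := by
        refine (norm_add_le _ _).trans ?_
        rw [norm_neg, norm_mul, hε1, one_mul]
        have h4 : ‖X ^ 3 * (X ^ 3 + 2 * X' ^ 3)‖ = κ * (‖X‖ ^ 3) ^ 2 := by
          have h5 : X ^ 3 + 2 * X' ^ 3 = (τ : ℂ) * (A + 2 * A') := by
            rw [hX, hXX]; ring
          have h6 : ‖(τ : ℂ)‖ * ‖A‖ = ‖X‖ ^ 3 := by rw [← norm_mul, ← hX, norm_pow]
          rw [norm_mul, h5, norm_mul, norm_pow]
          have h7 : κ * ‖A‖ = ‖A + 2 * A'‖ := by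
            rw [hκ]
            field_simp
          rw [← h7, ← h6]
          ring
        have h5 : ‖2 * X ^ 3 + X' ^ 3‖ ≤ 3 * ‖X‖ ^ 3 := by
          refine (norm_add_le _ _).trans ?_
          rw [norm_mul, norm_pow, norm_pow, hnX]
          norm_num
          linarith
        rw [h4]
        linarith
      linarith
    have h3 := cube_gap hz hκ0 hκ3 (by rw [hY]; exact hX4) (by rw [hY]; exact hX3) hg2 h2
    have h4 : (X ^ 3 - ε) ^ 2 * (X' ^ 3 - ε) = (X ^ 2 * X') ^ 3 := by rw [← h, h3]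
    have h5 : ‖X' ^ 3 - (ε : ℂ)‖ = ‖X ^ 3 - (ε : ℂ)‖ := by rw [← hc, RCLike.norm_conj]
    have h6 : ‖X ^ 3 - (ε : ℂ)‖ ^ 3 = (‖X‖ ^ 3) ^ 3 := by
      have h7 := congrArg norm h4
      rw [norm_mul, norm_pow, h5, norm_pow, hY] at h7
      rw [← h7]
      ring
    have h7 : ‖X ^ 3 - (ε : ℂ)‖ = ‖X‖ ^ 3 :=
      (pow_left_inj₀ (norm_nonneg _) (by positivity) (by norm_num)).1 h6
    apply key
    have e1 : (X ^ 3 - ε) * (X' ^ 3 - ε) = ((‖X ^ 3 - (ε : ℂ)‖ ^ 2 : ℝ) : ℂ) := by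
      rw [← hc, Complex.mul_conj, Complex.normSq_eq_norm_sq]
    have e2 : X ^ 3 * X' ^ 3 = (((‖X‖ ^ 3) ^ 2 : ℝ) : ℂ) := by
      have : X' ^ 3 = (starRingEnd ℂ) (X ^ 3) := by rw [map_pow]
      rw [this, Complex.mul_conj, Complex.normSq_eq_norm_sq, norm_pow]
    rw [e1, e2, h7]

theorem noncube2 {k : Type} [Field k] [NumberField k] (hk2 : Module.finrank ℚ k = 2)
    [IsTotallyComplex k] (ω : 𝓞 k) (hω : ω ^ 2 + ω + 1 = 0) {d : ℕ} (hd : 0 < d)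
    (b : Fin d → ℤ) (a : 𝓞 k) (β : Fin d → 𝓞 k)
    (hβ : ∀ i, (b i : 𝓞 k) - a = β i ^ 3) (hβ0 : ∀ i, β i ≠ 0)
    (hA : ∀ n : ℤ, ∏ i, β i ^ 3 ≠ (n : 𝓞 k)) :
    ∃ M : ℤ, ∀ t : ℤ, M ≤ |t| → ∀ (F K : Type) [Field F] [NumberField F] [IsTotallyReal F]
      [Field K] [NumberField K] [IsTotallyComplex K] [Algebra F K] [Algebra k K],
      Module.finrank F K = 2 → Module.finrank ℚ F = d → ∀ w : F,
      ∏ i, (w - (b i : F) * (t : F) ^ 3) = 1 → IntermediateField.adjoin ℚ {w} = ⊤ →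
      ∀ c : K ≃ₐ[F] K, c ≠ 1 → ∀ γ : K,
      γ ^ 3 ≠ (algebraMap F K w - algebraMap k K a * (t : K) ^ 3) *
        c (algebraMap F K w - algebraMap k K a * (t : K) ^ 3) ∧
      γ ^ 3 ≠ (algebraMap F K w - algebraMap k K a * (t : K) ^ 3) ^ 2 *
        c (algebraMap F K w - algebraMap k K a * (t : K) ^ 3) := by
  classical
  obtain ⟨φ₀⟩ : Nonempty (k →+* ℂ) := inferInstance
  obtain ⟨T, N, hT, hN⟩ := quadC hk2 φ₀ (∏ i, β i ^ 3)
  obtain ⟨T', m, -, hm⟩ := quadC hk2 φ₀ (∏ i, β i)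
  set A' : ℂ := φ₀ ((∏ i, β i ^ 3 : 𝓞 k) : k) with hA'
  set B' : ℂ := φ₀ ((∏ i, β i : 𝓞 k) : k) with hB'
  have hAB : A' = B' ^ 3 := by
    have h1 : (((∏ i, β i) ^ 3 : 𝓞 k) : k) = ((∏ i, β i : 𝓞 k) : k) ^ 3 :=
      map_pow (algebraMap (𝓞 k) k) _ 3
    rw [hA', hB', Finset.prod_pow, h1, map_pow]
  have hB0 : B' ≠ 0 := by
    rw [hB', Ne, map_eq_zero]
    have h1 : (∏ i, β i : 𝓞 k) ≠ 0 := Finset.prod_ne_zero_iff.2 fun i _ => hβ0 i
    exact fun h => h1 (RingOfIntegers.ext (h.trans (map_zero _).symm))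
  have hB1 : 1 ≤ ‖B'‖ := emb_ge hk2 φ₀ _ hB0
  have him : A'.im ≠ 0 := by
    intro h0
    have h1 : (starRingEnd ℂ) A' = A' := Complex.conj_eq_iff_im.2 h0
    rw [h1] at hT
    -- `2 A' = T`, and `A'` is integral
    have h2 : IsIntegral ℤ (((∏ i, β i ^ 3 : 𝓞 k) : k)) := RingOfIntegers.isIntegral_coe _
    have h3 : ((∏ i, β i ^ 3 : 𝓞 k) : k) = algebraMap ℚ k ((T : ℚ) / 2) := by
      apply φ₀.injective
      change A' = _
      have h4 : φ₀ (algebraMap ℚ k ((T : ℚ) / 2)) = (T : ℂ) / 2 := by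
        rw [← RingHom.comp_apply, eq_ratCast]
        simp
      rw [h4, ← hT]
      ring
    rw [h3] at h2
    have h5 : IsIntegral ℤ ((T : ℚ) / 2) :=
      (isIntegral_algebraMap_iff (algebraMap ℚ k).injective).1 h2
    obtain ⟨n, hn⟩ := IsIntegrallyClosed.isIntegral_iff.1 h5
    apply hA n
    apply RingOfIntegers.ext
    rw [h3, ← hn]
    simp
  obtain ⟨M, hM⟩ := exists_nat_gt (max 212 (212 / (3 - ‖A' + 2 * (starRingEnd ℂ) A'‖ / ‖A'‖)))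
  refine ⟨(M : ℤ), ?_⟩
  intro t ht F K _ _ _ _ _ _ _ _ hFK hFd w hw hgen c hc γ
  set α : K := algebraMap F K w - algebraMap k K a * (t : K) ^ 3 with hα
  by_contra hcon
  have hcon' : γ ^ 3 = α * c α ∨ γ ^ 3 = α ^ 2 * c α := by
    by_contra h
    exact hcon ⟨fun h1 => h (Or.inl h1), fun h1 => h (Or.inr h1)⟩
  have hconj := conj_comp hFK c hc
  have htM : (M : ℝ) ≤ |(t : ℝ)| := by exact_mod_cast ht
  have ht212 : (212 : ℝ) < |(t : ℝ)| := (le_max_left _ _).trans_lt (hM.trans_le htM)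
  have htκ : 212 / (3 - ‖A' + 2 * (starRingEnd ℂ) A'‖ / ‖A'‖) < |(t : ℝ)| :=
    (le_max_right _ _).trans_lt (hM.trans_le htM)
  set a' : ℂ := φ₀ a with ha'
  -- integrality
  have hwint : IsIntegral ℤ w :=
    Pool.Agent.H637R2.Leo.theta_integral hd (fun i => b i * t ^ 3) w (by
      rw [← hw]
      refine Finset.prod_congr rfl fun i _ => ?_
      push_cast
      ring)
  have hαint : IsIntegral ℤ α := by
    rw [hα]
    apply IsIntegral.sub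
    · exact hwint.map (algebraMap F K).toIntAlgHom
    · apply IsIntegral.mul
      · exact (RingOfIntegers.isIntegral_coe a).map (algebraMap k K).toIntAlgHom
      · exact IsIntegral.pow (isIntegral_algebraMap (R := ℤ) (x := t)) 3
  have hcαint : IsIntegral ℤ (c α) := hαint.map (c : K →+* K).toIntAlgHom
  have hγint : IsIntegral ℤ γ := by
    have h1 : IsIntegral ℤ (γ ^ 3) := by
      rcases hcon' with h | h
      · rw [h]; exact hαint.mul hcαint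
      · rw [h]; exact (hαint.pow 2).mul hcαint
    exact h1.of_pow (by norm_num)
  obtain ⟨s, hs⟩ := rel_norm (k := k) (K := K) φ₀ γ hγint
  -- the norm of `α`
  set e : ℤ := (-1) ^ d with he
  have he2 : e * e = 1 := by
    rw [he, ← mul_pow]
    norm_num
  have heC : (e : ℂ) = (-1) ^ d := by rw [he]; push_cast; rfl
  have hcardF : Fintype.card (F →+* ℂ) = d := by rw [NumberField.Embeddings.card, hFd]
  have hw' : ∏ i, (w - ((b i * t ^ 3 : ℤ) : F)) = 1 := by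
    rw [← hw]
    refine Finset.prod_congr rfl fun i _ => ?_
    push_cast
    ring
  have hβ' : ∀ i, a' - (b i : ℂ) = -φ₀ (β i) ^ 3 := by
    intro i
    have h1 := congrArg (fun x : 𝓞 k => φ₀ (x : k)) (hβ i)
    simp only [map_sub, map_intCast, map_pow] at h1
    rw [← h1]
    ring
  have hAA : A' = ∏ i, φ₀ (β i) ^ 3 := by
    have h5 : ((∏ i, β i ^ 3 : 𝓞 k) : k) = ∏ i, (β i : k) ^ 3 := by
      refine (map_prod (algebraMap (𝓞 k) k) (fun i => β i ^ 3) Finset.univ).trans ?_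
      refine Finset.prod_congr rfl fun i _ => ?_
      rw [map_pow]
    rw [hA', h5, map_prod]
    refine Finset.prod_congr rfl fun i _ => ?_
    rw [map_pow]
  have hPa : ∏ i, (a' * (t : ℂ) ^ 3 - ((b i * t ^ 3 : ℤ) : ℂ)) = ((t : ℂ) ^ 3) ^ d * (e * A') := by
    have h1 : ∀ i, a' * (t : ℂ) ^ 3 - ((b i * t ^ 3 : ℤ) : ℂ) =
        (t : ℂ) ^ 3 * ((-1) * φ₀ (β i) ^ 3) := by
      intro i
      push_cast
      linear_combination (t : ℂ) ^ 3 * hβ' i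
    rw [Finset.prod_congr rfl fun i _ => h1 i, Finset.prod_mul_distrib, Finset.prod_mul_distrib,
      ← hAA, heC]
    simp
  set Z : ℂ := ∏ σ ∈ embs (K := K) φ₀, σ α with hZ
  have hZval : Z = ((t : ℂ) ^ 3) ^ d * A' - e := by
    have h1 : ∀ σ ∈ embs (K := K) φ₀, σ α =
        (fun τ : F →+* ℂ => (-1) * (a' * (t : ℂ) ^ 3 - τ w)) (σ.comp (algebraMap F K)) := by
      intro σ hσ
      have h2 : σ (algebraMap k K a) = a' :=
        congrArg (fun f : k →+* ℂ => f a) (mem_embs.1 hσ)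
      have h3 : σ.comp (algebraMap F K) w = σ (algebraMap F K w) := rfl
      simp only
      rw [hα, map_sub, map_mul, map_pow, map_intCast, h2, h3]
      ring
    rw [hZ, Finset.prod_congr rfl h1, prod_embs hk2 hFK φ₀
      (fun τ : F →+* ℂ => (-1) * (a' * (t : ℂ) ^ 3 - τ w)), Finset.prod_mul_distrib,
      prod_emb hd hFd (fun i => b i * t ^ 3) w hw' hgen, hPa]
    simp only [Finset.prod_const, Finset.card_univ, hcardF]
    rw [← heC]
    have he2' : (e : ℂ) * e = 1 := by exact_mod_cast he2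
    linear_combination (((t : ℂ) ^ 3) ^ d * A') * he2'
  have hZc : ∏ σ ∈ embs (K := K) φ₀, σ (c α) = (starRingEnd ℂ) Z := by
    rw [hZ, map_prod]
    exact Finset.prod_congr rfl fun σ _ => hconj σ α
  set X : ℂ := (t : ℂ) ^ d * B' with hX
  have hX3 : X ^ 3 = (((t : ℝ) ^ (3 * d) : ℝ) : ℂ) * A' := by
    rw [hX, hAB]
    push_cast
    rw [mul_pow, ← pow_mul, mul_comm d 3]
  have hZX : Z = X ^ 3 - (((e : ℝ)) : ℂ) := by
    rw [hZval, hX3]
    push_cast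
    rw [pow_mul]
  have hs3 : (φ₀ s) ^ 3 = (X ^ 3 - ((e : ℝ) : ℂ)) * (starRingEnd ℂ) (X ^ 3 - ((e : ℝ) : ℂ)) ∨
      (φ₀ s) ^ 3 = (X ^ 3 - ((e : ℝ) : ℂ)) ^ 2 * (starRingEnd ℂ) (X ^ 3 - ((e : ℝ) : ℂ)) := by
    rw [← hZX, hs, ← Finset.prod_pow]
    rcases hcon' with h | h
    · left
      rw [← hZc, hZ, ← Finset.prod_mul_distrib]
      refine Finset.prod_congr rfl fun σ _ => ?_
      rw [← map_pow, h, map_mul]
    · right
      rw [← hZc, hZ, ← Finset.prod_pow, ← Finset.prod_mul_distrib]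
      refine Finset.prod_congr rfl fun σ _ => ?_
      rw [← map_pow, h, map_mul, map_pow]
  -- sizes
  have htd : |(t : ℝ)| ≤ |(t : ℝ)| ^ d := le_self_pow₀ (by linarith) (by omega)
  have hXn : |(t : ℝ)| ≤ ‖X‖ := by
    rw [hX, norm_mul, norm_pow, Complex.norm_intCast]
    nlinarith [pow_nonneg (abs_nonneg (t : ℝ)) d]
  have hX1 : 1 ≤ ‖X‖ := by linarith
  have hXn2 : |(t : ℝ)| ≤ ‖X‖ ^ 2 := by nlinarith
  have hXn3 : |(t : ℝ)| ≤ ‖X‖ ^ 3 := by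
    have : ‖X‖ ^ 3 = ‖X‖ * ‖X‖ ^ 2 := by ring
    nlinarith
  -- elements of the ring
  have hωC : (φ₀ ω) ^ 2 + φ₀ ω + 1 = 0 := by
    have h1 := congrArg (fun x : 𝓞 k => φ₀ (x : k)) hω
    simpa using h1
  have hXX : X * (starRingEnd ℂ) X = φ₀ (((t ^ (2 * d) * m : ℤ) : 𝓞 k) : k) := by
    have h1 : (starRingEnd ℂ) X = (t : ℂ) ^ d * (starRingEnd ℂ) B' := by
      rw [hX, map_mul, map_pow, map_intCast]
    rw [h1, hX]
    have h2 : φ₀ (((t ^ (2 * d) * m : ℤ) : 𝓞 k) : k) = (t : ℂ) ^ (2 * d) * m := by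
      simp
    rw [h2, ← hm, mul_comm 2 d, pow_mul]
    ring
  have hXr : X = φ₀ (((t ^ d : ℤ) : 𝓞 k) * (∏ i, β i) : 𝓞 k) := by
    rw [hX]
    have h2 : ((((t ^ d : ℤ) : 𝓞 k) * (∏ i, β i) : 𝓞 k) : k) =
        (t : k) ^ d * ((∏ i, β i : 𝓞 k) : k) := by
      rw [kmul]
      congr 1
      simp
    rw [h2, map_mul, map_pow, map_intCast]
  have hX2X : X ^ 2 * (starRingEnd ℂ) X =
      φ₀ ((((t ^ d : ℤ) : 𝓞 k) * (∏ i, β i)) * ((t ^ (2 * d) * m : ℤ) : 𝓞 k) : 𝓞 k) := by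
    have h1 : X ^ 2 * (starRingEnd ℂ) X = X * (X * (starRingEnd ℂ) X) := by ring
    rw [h1, hXX, kmul _ (((t ^ (2 * d) * m : ℤ) : 𝓞 k)), map_mul, ← hXr]
  have hgap : ∀ (y : 𝓞 k) (l : ℂ), (l = 1 ∨ l = φ₀ ω ∨ l = (φ₀ ω) ^ 2) →
      φ₀ s ≠ l * φ₀ y → 1 ≤ ‖φ₀ s - l * φ₀ y‖ := by
    intro y l hl hne
    obtain ⟨l', hl'⟩ : ∃ l' : 𝓞 k, φ₀ l' = l := by
      rcases hl with rfl | rfl | rfl
      · exact ⟨1, by simp⟩
      · exact ⟨ω, rfl⟩
      · exact ⟨ω ^ 2, by simp⟩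
    have h1 : φ₀ ((s - l' * y : 𝓞 k) : k) = φ₀ s - l * φ₀ y := by
      rw [← hl', ksub, kmul, map_sub, map_mul]
    rw [← h1]
    apply emb_ge hk2
    rw [h1, sub_ne_zero]
    exact hne
  have hfin := two_cases (z := φ₀ ω) (s := φ₀ s) (X := X) (A := A') (ε := (e : ℝ))
    (τ := (t : ℝ) ^ (3 * d)) hωC (by exact_mod_cast he2) hX3 him hX1 (by linarith)
    (by linarith) (by linarith)
    (by rw [hXX]; exact hgap _) (by rw [hX2X]; exact hgap _) hs3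
  rw [hT] at hfin
  have hfin' : t ^ (3 * d) * T = e := by
    have : (((t ^ (3 * d) * T : ℤ)) : ℂ) = ((e : ℤ) : ℂ) := by
      push_cast
      push_cast at hfin
      exact hfin
    exact_mod_cast this
  refine no_small T (t ^ (3 * d)) e ?_ he2 hfin'
  have ht2 : 2 ≤ |t| := by
    have : (2 : ℝ) ≤ |(t : ℝ)| := by linarith
    exact_mod_cast this
  rw [abs_pow]
  exact ht2.trans (le_self_pow₀ (by omega) (by omega))

end Pool.Agent.V7H76.CU
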