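import Mathlib
import Pool.Agent.V7H76.CU.Gal

set_option autoImplicit false

/-!
# The cubic extension is not Galois over `F`
-/

namespace Pool.Agent.V7H76.CU

lemma same_of_root {K H : Type} [Field K] [Field H] [CharZero K] [Algebra K H]
    (h3 : Module.finrank K H = 3) {α : K} (hα : ∀ x : K, x ^ 3 ≠ α) {θ : H}
    (hθ : θ ^ 3 = algebraMap K H α) (σ τ : H ≃ₐ[K] H) (h : σ θ = τ θ) : σ = τ := by
  have h1 : τ⁻¹ * σ = 1 := by
    apply fix_root h3 hα hθ
    change τ.symm (σ θ) = θ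
    rw [h, AlgEquiv.symm_apply_apply]
  have h2 : σ = τ * (τ⁻¹ * σ) := by group
  rw [h2, h1, mul_one]

lemma fixed_mem {K H : Type} [Field K] [Field H] [CharZero K] [Algebra K H] [IsGalois K H]
    (h3 : Module.finrank K H = 3) {ω : K} (hω : ω ^ 2 + ω + 1 = 0) {α : K}
    (hα : ∀ x : K, x ^ 3 ≠ α) {θ : H} (hθ : θ ^ 3 = algebraMap K H α) (τ : H ≃ₐ[K] H)
    (hτ : τ θ = algebraMap K H ω * θ) (h : H) (hh : τ h = h) : ∃ x : K, algebraMap K H x = h := by
  have hfd : FiniteDimensional K H := Module.finite_of_finrank_pos (by omega)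
  have hW1 : (algebraMap K H ω) ^ 2 + algebraMap K H ω + 1 = 0 := by
    have := congrArg (algebraMap K H) hω
    simpa using this
  have h1 : h ∈ (⊥ : IntermediateField K H) := by
    rw [IsGalois.mem_bot_iff_fixed]
    intro f
    have h2 : (f θ) ^ 3 = θ ^ 3 := by rw [← map_pow, hθ, AlgEquiv.commutes]
    rcases root_cases hW1 h2 with h4 | h4 | h4
    · rw [fix_root h3 hα hθ f h4]; rfl
    · rw [same_of_root h3 hα hθ f τ (by rw [h4, hτ])]; exact hh
    · have h5 : (τ * τ) θ = algebraMap K H ω ^ 2 * θ := by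
        change τ (τ θ) = _
        rw [hτ, map_mul, AlgEquiv.commutes, hτ]
        ring
      rw [same_of_root h3 hα hθ f (τ * τ) (by rw [h4, h5])]
      change τ (τ h) = h
      rw [hh, hh]
  exact IntermediateField.mem_bot.1 h1

theorem not_galois {F K H : Type} [Field F] [Field K] [Field H] [CharZero K] [Algebra F K]
    [Algebra K H] [Algebra F H] [IsScalarTower F K H] (h3 : Module.finrank K H = 3)
    {ω : K} (hω : ω ^ 2 + ω + 1 = 0) {α : K} (hα : ∀ x : K, x ^ 3 ≠ α) {θ : H}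
    (hθ : θ ^ 3 = algebraMap K H α) (c : K ≃ₐ[F] K)
    (hc : ∀ x : K, x ^ 3 ≠ α * c α ∧ x ^ 3 ≠ α ^ 2 * c α) : ¬ IsGalois F H := by
  intro hG
  have hN : Normal F H := inferInstance
  have hK : IsGalois K H := IsGalois.tower_top_of_isGalois F K H
  have hfd : FiniteDimensional K H := Module.finite_of_finrank_pos (by omega)
  set g := c.liftNormal H with hg
  have hgc : ∀ x : K, g (algebraMap K H x) = algebraMap K H (c x) := fun x =>
    c.liftNormal_commutes H x
  set W : H := algebraMap K H ω with hW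
  have hW1 : W ^ 2 + W + 1 = 0 := by
    have := congrArg (algebraMap K H) hω
    simpa using this
  have hW3 : W ^ 3 = 1 := by linear_combination (W - 1) * hW1
  -- a generator
  obtain ⟨τ, hτ⟩ : ∃ τ : H ≃ₐ[K] H, τ θ = W * θ := by
    have hcard : Nat.card (H ≃ₐ[K] H) = 3 := by
      rw [IsGalois.card_aut_eq_finrank, h3]
    obtain ⟨τ, hτ⟩ : ∃ τ : H ≃ₐ[K] H, τ ≠ 1 := by
      have : Nontrivial (H ≃ₐ[K] H) := by
        rw [← Finite.one_lt_card_iff_nontrivial, hcard]; norm_num
      exact exists_ne 1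
    have h2 : (τ θ) ^ 3 = θ ^ 3 := by rw [← map_pow, hθ, AlgEquiv.commutes]
    rcases root_cases hW1 h2 with h4 | h4 | h4
    · exact absurd (fix_root h3 hα hθ τ h4) hτ
    · exact ⟨τ, h4⟩
    · refine ⟨τ * τ, ?_⟩
      change τ (τ θ) = _
      rw [h4, map_mul, map_pow, τ.commutes, h4]
      linear_combination (W * θ) * hW3
  set η := g θ with hη
  have hη3 : η ^ 3 = algebraMap K H (c α) := by
    rw [hη, ← map_pow, hθ, hgc]
  have h2 : (τ η) ^ 3 = η ^ 3 := by rw [← map_pow, hη3, AlgEquiv.commutes]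
  rcases root_cases hW1 h2 with h4 | h4 | h4
  · obtain ⟨x, hx⟩ := fixed_mem h3 hω hα hθ τ hτ η h4
    apply hα (c.symm x)
    rw [← map_pow]
    have h5 : x ^ 3 = c α := by
      apply (algebraMap K H).injective
      rw [map_pow, hx, hη3]
    rw [h5, AlgEquiv.symm_apply_apply]
  · obtain ⟨x, hx⟩ := fixed_mem h3 hω hα hθ τ hτ (η * θ ^ 2) (by
      rw [map_mul, map_pow, h4, hτ]
      linear_combination (η * θ ^ 2) * hW3)
    apply (hc x).2
    apply (algebraMap K H).injective
    rw [map_pow, hx, map_mul, map_pow, ← hη3, ← hθ]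
    ring
  · obtain ⟨x, hx⟩ := fixed_mem h3 hω hα hθ τ hτ (η * θ) (by
      rw [map_mul, h4, hτ]
      linear_combination (η * θ) * hW3)
    apply (hc x).1
    apply (algebraMap K H).injective
    rw [map_pow, hx, map_mul, ← hη3, ← hθ]
    ring

end Pool.Agent.V7H76.CU
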