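import Mathlib
import Pool.Agent.V7H76.CU.Main
import Pool.Agent.V7H76.CU.NonCube2
import Pool.Agent.V7H76.CU.NonGal
import Pool.Agent.V7H76.CU.Data
import Pool.Agent.Y789.SG.ExistF

set_option autoImplicit false

/-!
# The main theorem for cubic characters, II
-/

namespace Pool.Agent.V7H76.CU

open NumberField Pool.Agent.W289.SL
open Pool.Agent.Y789.SG (totally_real)

/-- a number field containing a primitive cube root of unity is totally complex -/
lemma totally_complex {k : Type} [Field k] [NumberField k] (ω : 𝓞 k) (hω : ω ^ 2 + ω + 1 = 0) :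
    IsTotallyComplex k := by
  refine ⟨fun v => ?_⟩
  rw [← InfinitePlace.not_isReal_iff_isComplex]
  intro hv
  rw [InfinitePlace.isReal_iff, ComplexEmbedding.isReal_iff] at hv
  have h1 : (v.embedding ω) ^ 2 + v.embedding ω + 1 = 0 := by
    have h2 := congrArg (fun x : 𝓞 k => v.embedding (x : k)) hω
    simpa using h2
  have h2 : (v.embedding ω).im = 0 := by
    rw [← Complex.conj_eq_iff_im]
    exact congrArg (fun f : k →+* ℂ => f ω) hv
  have h3 := congrArg Complex.re h1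
  simp [pow_two, h2] at h3
  nlinarith [sq_nonneg ((v.embedding ω).re + 1 / 2)]

/-- the cubic extension exists -/
lemma exists_cubic {K : Type} [Field K] [NumberField K] (α : K) (hα : ∀ x : K, x ^ 3 ≠ α) :
    ∃ (H : Type) (_ : Field H) (_ : NumberField H) (_ : Algebra K H) (θ : H),
      Module.finrank K H = 3 ∧ θ ^ 3 = algebraMap K H α := by
  have hirr : Irreducible (Polynomial.X ^ 3 - Polynomial.C α) :=
    X_pow_sub_C_irreducible_of_prime Nat.prime_three hα
  have hfact : Fact (Irreducible (Polynomial.X ^ 3 - Polynomial.C α)) := ⟨hirr⟩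
  have hne := hirr.ne_zero
  have hfin : FiniteDimensional K (AdjoinRoot (Polynomial.X ^ 3 - Polynomial.C α)) :=
    (AdjoinRoot.powerBasis hne).finite
  have hfr : Module.finrank K (AdjoinRoot (Polynomial.X ^ 3 - Polynomial.C α)) = 3 := by
    rw [(AdjoinRoot.powerBasis hne).finrank, AdjoinRoot.powerBasis_dim,
      Polynomial.natDegree_X_pow_sub_C]
  have hchar : CharZero (AdjoinRoot (Polynomial.X ^ 3 - Polynomial.C α)) :=
    charZero_of_injective_algebraMap (algebraMap K _).injective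
  have hQ : FiniteDimensional ℚ (AdjoinRoot (Polynomial.X ^ 3 - Polynomial.C α)) :=
    FiniteDimensional.trans ℚ K _
  refine ⟨AdjoinRoot (Polynomial.X ^ 3 - Polynomial.C α), inferInstance, ⟨⟩, inferInstance,
    AdjoinRoot.root _, hfr, ?_⟩
  have h1 := AdjoinRoot.eval₂_root (Polynomial.X ^ 3 - Polynomial.C α)
  rw [Polynomial.eval₂_sub, Polynomial.eval₂_pow, Polynomial.eval₂_X, Polynomial.eval₂_C,
    sub_eq_zero] at h1
  exact h1

/-- **Main theorem.** -/
theorem main_thm (p : ℕ) [Fact p.Prime] (k : Type) [Field k] [NumberField k]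
    (hk : Module.finrank ℚ k = 2) (ω : 𝓞 k) (hω : ω ^ 2 + ω + 1 = 0)
    (d : ℕ) (hd : 0 < d) (b : Fin d → ℤ)
    (hb : Function.Injective b) (a : 𝓞 k) (β : Fin d → 𝓞 k)
    (hβ : ∀ i, (b i : 𝓞 k) - a = β i ^ 3) (hβ0 : ∀ i, β i ≠ 0) :
    ∃ S₀ : Set ℤ, S₀.Finite ∧ ∀ t : ℤ, t ∉ S₀ → 3 ≤ |t| ∧
      ∀ (F K : Type) [Field F] [NumberField F] [Field K] [NumberField K] [Algebra F K]
        [Algebra k K] (w : F), Module.finrank F K = 2 →
        ∏ i, (w - (b i : F) * (t : F) ^ 3) = 1 → IntermediateField.adjoin ℚ {w} = ⊤ →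
        Module.finrank ℚ F = d ∧ IsTotallyReal F ∧ IsTotallyComplex K ∧
        (∀ x : K, x ^ 3 ≠ algebraMap F K w - algebraMap k K a * (t : K) ^ 3) ∧
        ∀ (H : Type) [Field H] [NumberField H] [Algebra K H] (θ : H),
          Module.finrank K H = 3 →
          θ ^ 3 = algebraMap K H (algebraMap F K w - algebraMap k K a * (t : K) ^ 3) →
          ((∀ n : ℤ, ∏ i, β i ^ 3 ≠ (n : 𝓞 k)) →
            ∀ [Algebra F H] [IsScalarTower F K H], ¬ IsGalois F H) ∧
          ∀ S : Set (K →+* ℂ_[p]), IsCMType p F K S →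
            ∀ χ : (H ≃ₐ[K] H) →* ℂ_[p]ˣ, χ ≠ 1 → SigmaLeopoldt p K H S χ := by
  classical
  have hkc : IsTotallyComplex k := totally_complex ω hω
  have hωk : (ω : k) ^ 2 + (ω : k) + 1 = 0 := by
    have h1 := congrArg (algebraMap (𝓞 k) k) hω
    simpa using h1
  obtain ⟨L₀, hL₀⟩ := exists_iwasawaLog p
  obtain ⟨S₁, hS₁, hS₁'⟩ := exc_set p k hd (ω : k) hωk b hb (a : k) (fun i => (β i : k))
    (fun i => by
      have h1 := congrArg (algebraMap (𝓞 k) k) (hβ i)
      rw [map_sub, map_intCast, map_pow] at h1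
      exact h1)
    (fun i h => hβ0 i (RingOfIntegers.ext (h.trans (map_zero _).symm))) L₀ hL₀
  obtain ⟨M, hM⟩ : ∃ M : ℤ, ∀ t : ℤ, M ≤ |t| → (∀ n : ℤ, ∏ i, β i ^ 3 ≠ (n : 𝓞 k)) →
      ∀ (F K : Type) [Field F] [NumberField F] [IsTotallyReal F]
      [Field K] [NumberField K] [IsTotallyComplex K] [Algebra F K] [Algebra k K],
      Module.finrank F K = 2 → Module.finrank ℚ F = d → ∀ w : F,
      ∏ i, (w - (b i : F) * (t : F) ^ 3) = 1 → IntermediateField.adjoin ℚ {w} = ⊤ →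
      ∀ c : K ≃ₐ[F] K, c ≠ 1 → ∀ γ : K,
      γ ^ 3 ≠ (algebraMap F K w - algebraMap k K a * (t : K) ^ 3) *
        c (algebraMap F K w - algebraMap k K a * (t : K) ^ 3) ∧
      γ ^ 3 ≠ (algebraMap F K w - algebraMap k K a * (t : K) ^ 3) ^ 2 *
        c (algebraMap F K w - algebraMap k K a * (t : K) ^ 3) := by
    by_cases hA : ∀ n : ℤ, ∏ i, β i ^ 3 ≠ (n : 𝓞 k)
    · obtain ⟨M, hM⟩ := noncube2 hk ω hω hd b a β hβ hβ0 hA
      exact ⟨M, fun t ht _ => hM t ht⟩
    · exact ⟨0, fun t _ h => absurd h hA⟩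
  refine ⟨S₁ ∪ Set.Icc (-(max M 3)) (max M 3), hS₁.union (Set.finite_Icc _ _), ?_⟩
  intro t ht
  rw [Set.mem_union, not_or] at ht
  obtain ⟨ht1, ht2⟩ := ht
  have ht3 : max M 3 < |t| := by
    rw [Set.mem_Icc, ← abs_le] at ht2
    exact lt_of_not_ge ht2
  have htM : M ≤ |t| := (le_max_left _ _).trans ht3.le
  have ht4 : 3 ≤ |t| := (le_max_right _ _).trans ht3.le
  refine ⟨ht4, ?_⟩
  intro F K _ _ _ _ _ _ w hFK hw hgen
  have ht0 : t ≠ 0 := by
    rintro rfl
    simp at ht4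
  have hw' : ∏ i, (w - ((b i * t ^ 3 : ℤ) : F)) = 1 := by
    rw [← hw]
    refine Finset.prod_congr rfl fun i _ => ?_
    push_cast
    ring
  have htcu : 3 ≤ |t ^ 3| := by
    rw [abs_pow]
    calc (3 : ℤ) ≤ |t| := ht4
      _ ≤ |t| ^ 3 := le_self_pow₀ (by omega) (by norm_num)
  have hgap : ∀ i j, i ≠ j → 3 ≤ |b i * t ^ 3 - b j * t ^ 3| := by
    intro i j hij
    have h1 : b i - b j ≠ 0 := sub_ne_zero.2 fun h => hij (hb h)
    have h2 := Int.one_le_abs h1
    rw [← sub_mul, abs_mul]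
    nlinarith
  have hinj : Function.Injective fun i => b i * t ^ 3 := by
    intro i j hij
    exact hb (mul_right_cancel₀ (pow_ne_zero 3 ht0) hij)
  have hFd : Module.finrank ℚ F = d :=
    Pool.Agent.H637R2.Leo.finrank_eq hd (fun i => b i * t ^ 3) hinj w hw' hgen
  have hFr : IsTotallyReal F := totally_real hd (fun i => b i * t ^ 3) hgap F w hw' hgen
  have hKc : IsTotallyComplex K := isTotallyComplex_of_algebra k K
  have hkK : Module.finrank k K = d := by
    have h1 := Module.finrank_mul_finrank ℚ k K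
    have h2 := Module.finrank_mul_finrank ℚ F K
    rw [hk] at h1
    rw [hFd, hFK] at h2
    omega
  have hwK : ∏ i, (algebraMap F K w - (b i : K) * (t : K) ^ 3) = 1 := by
    have h1 := congrArg (algebraMap F K) hw
    simp only [map_prod, map_sub, map_mul, map_pow, map_intCast, map_one] at h1
    exact h1
  have hcu : ∀ x : K, x ^ 3 ≠ algebraMap F K w - algebraMap k K a * (t : K) ^ 3 :=
    noncube hk hd hkK ω hω b hb a β hβ hβ0 t ht4 _ hwK
  refine ⟨hFd, hFr, hKc, hcu, ?_⟩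
  intro H _ _ _ θ hKH hθ
  have hωK : (algebraMap k K ω) ^ 2 + algebraMap k K ω + 1 = 0 := by
    have h1 := congrArg (algebraMap k K) hωk
    simpa using h1
  refine ⟨?_, fun S hS χ hχ => sl_one p ω hω b a β hβ hL₀ t ht0 (hS₁' t ht1) hFK hFd w hw hgen
    hcu hKH θ hθ S hS χ hχ⟩
  intro hA _ _
  have hquad : Algebra.IsQuadraticExtension F K := ⟨hFK⟩
  have hcard : Nat.card (K ≃ₐ[F] K) = 2 := by
    rw [IsGalois.card_aut_eq_finrank, hFK]
  obtain ⟨c, hc⟩ : ∃ c : K ≃ₐ[F] K, c ≠ 1 := by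
    have : Nontrivial (K ≃ₐ[F] K) := by
      rw [← Finite.one_lt_card_iff_nontrivial, hcard]; norm_num
    exact exists_ne 1
  exact not_galois hKH hωK hcu hθ c (hM t htM hA F K hFK hFd w hw hgen c hc)

end Pool.Agent.V7H76.CU
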